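/-
helper7.  Part R2 (near_isometry) of helper21's project on MP_7b8095_gt.  Definitions.
-/
import Pool.Agent.helper21.WB.Defs2

set_option autoImplicit false
open Matrix MeasureTheory

namespace Pool.Agent.helper7.WB
open Pool.Agent.helper21.WB

/-- the point at signed distance `h` from `y` in the direction of the null vector `ξ` -/
noncomputable def mv (ξ : I → ℝ) (h : ℝ) (y : X) : X :=
  fun i => Real.exp (-h) * y i + Real.sinh h / hb ξ y * ξ (Sum.inl i)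

/-- horospherical distance: distance of the projections to a horosphere of `ξ`, i.e. Euclidean distance
of the horizontal parts in half space coordinates with `ξ` at infinity and `hb ξ = 1/t` -/
noncomputable def fl (ξ : I → ℝ) (x y : X) : ℝ :=
  Real.sqrt (2 * ch x y / (hb ξ x * hb ξ y) - 1 / hb ξ x ^ 2 - 1 / hb ξ y ^ 2)

/-- transition element -/
def Tr {P : Type} (q q' : P → GLI) (σ : P) : GLI := q' σ * (q σ)⁻¹

/-- matched frames at scale `D/2` with accuracy `ρ` -/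
structure MF {P : Type} (q q' : P → GLI) (D ρ : ℝ) : Prop where
  inG : ∀ σ, InG (q σ)
  inG' : ∀ σ, InG (q' σ)
  close : ∀ σ τ, gd (q σ) (q τ) ≤ D / 2 →
    fn (((q σ)⁻¹ * q τ).val - ((q' σ)⁻¹ * q' τ).val) ≤ ρ
  close' : ∀ σ τ, gd (q' σ) (q' τ) ≤ D / 2 →
    fn (((q' σ)⁻¹ * q' τ).val - ((q σ)⁻¹ * q τ).val) ≤ ρ

theorem MF.symm {P : Type} {q q' : P → GLI} {D ρ : ℝ} (h : MF q q' D ρ) : MF q' q D ρ :=
  ⟨h.inG', h.inG, h.close', h.close⟩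

/-- `Ξ` is a family of horoballs of `Γ` as in `exists_horo` -/
structure IsHoro (Γ : Subgroup GLI) (η : ℝ) (Ξ : Set (I → ℝ)) : Prop where
  horo : Horo Ξ
  inv : ∀ γ ∈ Γ, ∀ ξ ∈ Ξ, γ.val *ᵥ ξ ∈ Ξ
  deep : ∀ y, y ∈ Deep Γ η ↔ ∃ ξ ∈ Ξ, hb ξ y < 1
  elts : ∀ ξ ∈ Ξ, ∃ γ : Fin 3 → GLI, (∀ i, γ i ∈ Γ) ∧ LinearIndependent ℝ (fun i => Yg (γ i)) ∧
    (∀ i, ∃ w, bl ξ w = 0 ∧ (γ i).val = 1 + wedge ξ w + (1 / 2 : ℝ) • (wedge ξ w * wedge ξ w)) ∧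
    (∀ y, hb ξ y ≤ 1 → ∀ i, sm y (γ i) ≤ η) ∧
    (∀ y, 1 ≤ hb ξ y → ∃ i, η ≤ sm y (γ i))

/-- The situation of R2: two discrete groups, an isomorphism, matched equivariant frames which are
dense outside the horoballs. -/
structure Mt (Γ Γ' : Subgroup GLI) (φ : Γ ≃* Γ') {P : Type} (q q' : P → GLI)
    (Ξ Ξ' : Set (I → ℝ)) (η D ρ : ℝ) : Prop where
  disc : Disc Γ
  disc' : Disc Γ'
  mf : MF q q' D ρ
  horo : IsHoro Γ η Ξ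
  horo' : IsHoro Γ' η Ξ'
  eqv : ∀ (γ : Γ) (σ : P), ∃ τ, q τ = γ.1 * q σ ∧ q' τ = (φ γ).1 * q' σ
  out : ∀ σ, act (q σ) 0 ∈ Out Ξ
  out' : ∀ σ, act (q' σ) 0 ∈ Out Ξ'
  dense : ∀ x ∈ Out Ξ, ∃ σ, hd x (act (q σ) 0) ≤ D / 16
  dense' : ∀ x ∈ Out Ξ', ∃ σ, hd x (act (q' σ) 0) ≤ D / 16

theorem Mt.symm {Γ Γ' : Subgroup GLI} {φ : Γ ≃* Γ'} {P : Type} {q q' : P → GLI}
    {Ξ Ξ' : Set (I → ℝ)} {η D ρ : ℝ} (h : Mt Γ Γ' φ q q' Ξ Ξ' η D ρ) :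
    Mt Γ' Γ φ.symm q' q Ξ' Ξ η D ρ where
  disc := h.disc'
  disc' := h.disc
  mf := h.mf.symm
  horo := h.horo'
  horo' := h.horo
  eqv := fun γ σ => by
    obtain ⟨τ, h1, h2⟩ := h.eqv (φ.symm γ) σ
    exact ⟨τ, by simpa using h2, h1⟩
  out := h.out'
  out' := h.out
  dense := h.dense'
  dense' := h.dense

/-- half of the matching relation of horoballs: the transition elements near the horosphere
`hb ξ = 1` map it close to the horosphere `hb ξ' = 1` -/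
def Mh {P : Type} (q q' : P → GLI) (D ε : ℝ) (ξ ξ' : I → ℝ) : Prop :=
  ∀ y, hb ξ y = 1 → ∀ σ, hd y (act (q σ) 0) ≤ D / 6 →
    |Real.log (hb ξ' (act (Tr q q' σ) y))| ≤ ε ∧ - bl ((Tr q q' σ).val *ᵥ ξ) ξ' ≤ ε

/-- matching relation of horoballs -/
def Mc {P : Type} (q q' : P → GLI) (D ε : ℝ) (ξ ξ' : I → ℝ) : Prop :=
  Mh q q' D ε ξ ξ' ∧ Mh q' q D ε ξ' ξ

/-- related pairs of points: the graph of a coarse near isometry -/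
def Rl {P : Type} (q q' : P → GLI) (Ξ Ξ' : Set (I → ℝ)) (D ε : ℝ) (x x' : X) : Prop :=
  ∃ (σ : P) (y : X), hd y (act (q σ) 0) ≤ D / 8 ∧
    ((x = y ∧ x' = act (Tr q q' σ) y) ∨
      ∃ ξ ∈ Ξ, ∃ ξ' ∈ Ξ', Mc q q' D ε ξ ξ' ∧ |Real.log (hb ξ y)| ≤ 1 ∧
        |Real.log (hb ξ' (act (Tr q q' σ) y))| ≤ 1 ∧
        ∃ h : ℝ, 0 ≤ h ∧ x = mv ξ h y ∧ x' = mv ξ' h (act (Tr q q' σ) y))

end Pool.Agent.helper7.WB
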