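import Pool.Agent.helper7.WB.R2_9
import Pool.Agent.helper8.WB.R2_7core
import Pool.Agent.helper28.WB.R2_6
import Pool.Agent.helper46.WB.Z2
import Pool.Agent.helper41.WB.R2_1

/-! [R2] assembly: `near_isometry` from `exists_horo`. -/

set_option autoImplicit false
open Matrix MeasureTheory

namespace Pool.Agent.helper7.WB
open Pool.Agent.helper21.WB

theorem nullClose : R27.NullClose := fun L ε hε => null_close L ε hε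

theorem ab3 : Z6.Ab3 := fun _ h1 h2 h3 => abelian_three h1 h2 h3

theorem match_at : ∃ η₀ : ℝ, 0 < η₀ ∧ ∀ η : ℝ, 0 < η → η ≤ η₀ → ∀ D : ℝ, 24 ≤ D → ∀ ε : ℝ, 0 < ε →
    ∃ ρ₀ : ℝ, 0 < ρ₀ ∧ ∀ {Γ Γ' : Subgroup GLI} {φ : Γ ≃* Γ'} {P : Type} {q q' : P → GLI}
      {Ξ Ξ' : Set (I → ℝ)} {ρ : ℝ}, ρ ≤ ρ₀ → Mt Γ Γ' φ q q' Ξ Ξ' η D ρ →
      ∀ ξ ∈ Ξ, ∀ y, hb ξ y = 1 → ∀ σ, hd y (act (q σ) 0) ≤ D / 6 → ∃ ξ' ∈ Ξ',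
        |Real.log (hb ξ' (act (Tr q q' σ) y))| ≤ ε ∧ - bl ((Tr q q' σ).val *ᵥ ξ) ξ' ≤ ε :=
  match_at_of ab3

theorem exists_match : ∃ η₀ : ℝ, 0 < η₀ ∧ ∀ η : ℝ, 0 < η → η ≤ η₀ → ∀ D : ℝ, 24 ≤ D → ∀ ε : ℝ, 0 < ε →
    ∃ ρ₀ : ℝ, 0 < ρ₀ ∧ ∀ {Γ Γ' : Subgroup GLI} {φ : Γ ≃* Γ'} {P : Type} {q q' : P → GLI}
      {Ξ Ξ' : Set (I → ℝ)} {ρ : ℝ}, ρ ≤ ρ₀ → Mt Γ Γ' φ q q' Ξ Ξ' η D ρ →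
      ∀ ξ ∈ Ξ, ∃ ξ' ∈ Ξ', Mc q q' D ε ξ ξ' := R27.exists_match_of nullClose match_at

theorem match_unique : T9.MatchUnique := R27.match_unique_of nullClose

theorem rl_near : ∃ a : ℝ, 0 < a ∧ ∀ D : ℝ, 24 ≤ D → ∀ D₂ : ℝ, ∃ ε : ℝ, 0 < ε ∧ ε ≤ 1 ∧
    ∃ ρ₀ : ℝ, 0 < ρ₀ ∧ ∀ {Γ Γ' : Subgroup GLI} {φ : Γ ≃* Γ'} {P : Type} {q q' : P → GLI}
      {Ξ Ξ' : Set (I → ℝ)} {η ρ : ℝ}, ρ ≤ ρ₀ → Mt Γ Γ' φ q q' Ξ Ξ' η D ρ →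
      ∀ x x' y y', Rl q q' Ξ Ξ' D ε x x' → Rl q q' Ξ Ξ' D ε y y' → hd x y ≤ D₂ →
        |hd x' y' - hd x y| ≤ a := T9.rl_near_of match_unique

theorem isHoro_of {Γ : Subgroup GLI} {η : ℝ} {Ξ : Set (I → ℝ)} (h : Horo Ξ ∧ (∀ γ ∈ Γ, ∀ ξ ∈ Ξ, γ.val *ᵥ ξ ∈ Ξ) ∧
      (∀ y, y ∈ Deep Γ η ↔ ∃ ξ ∈ Ξ, hb ξ y < 1) ∧
      (∀ ξ ∈ Ξ, ∃ γ : Fin 3 → GLI, (∀ i, γ i ∈ Γ) ∧ LinearIndependent ℝ (fun i => Yg (γ i)) ∧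
        (∀ i, ∃ w, bl ξ w = 0 ∧ (γ i).val = 1 + wedge ξ w + (1 / 2 : ℝ) • (wedge ξ w * wedge ξ w)) ∧
        (∀ y, hb ξ y ≤ 1 → ∀ i, sm y (γ i) ≤ η) ∧
        (∀ y, 1 ≤ hb ξ y → ∃ i, η ≤ sm y (γ i)) ∧
        (∀ y, hb ξ y ≤ 1 → ∀ δ : Fin 3 → GLI, (∀ i, δ i ∈ Γ) →
          LinearIndependent ℝ (fun i => Yg (δ i)) → ∃ i, ∀ j, sm y (γ j) ≤ sm y (δ i)))) :
    IsHoro Γ η Ξ := by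
  obtain ⟨h1, h2, h3, h4⟩ := h
  refine ⟨h1, h2, h3, fun ξ hξ => ?_⟩
  obtain ⟨γ, a1, a2, a3, a4, a5, -⟩ := h4 ξ hξ
  exact ⟨γ, a1, a2, a3, a4, a5⟩

/-- the statement of `exists_horo` [H1] -/
def ExistsHoro : Prop := ∃ η₀ : ℝ, 0 < η₀ ∧ ∀ η : ℝ, 0 < η → η ≤ η₀ → ∀ Γ : Subgroup GLI, Disc Γ →
    ∃ Ξ : Set (I → ℝ), Horo Ξ ∧ (∀ γ ∈ Γ, ∀ ξ ∈ Ξ, γ.val *ᵥ ξ ∈ Ξ) ∧
      (∀ y, y ∈ Deep Γ η ↔ ∃ ξ ∈ Ξ, hb ξ y < 1) ∧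
      (∀ ξ ∈ Ξ, ∃ γ : Fin 3 → GLI, (∀ i, γ i ∈ Γ) ∧ LinearIndependent ℝ (fun i => Yg (γ i)) ∧
        (∀ i, ∃ w, bl ξ w = 0 ∧ (γ i).val = 1 + wedge ξ w + (1 / 2 : ℝ) • (wedge ξ w * wedge ξ w)) ∧
        (∀ y, hb ξ y ≤ 1 → ∀ i, sm y (γ i) ≤ η) ∧
        (∀ y, 1 ≤ hb ξ y → ∃ i, η ≤ sm y (γ i)) ∧
        (∀ y, hb ξ y ≤ 1 → ∀ δ : Fin 3 → GLI, (∀ i, δ i ∈ Γ) →
          LinearIndependent ℝ (fun i => Yg (δ i)) → ∃ i, ∀ j, sm y (γ j) ≤ sm y (δ i)))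

theorem near_isometry_of (exists_horo : ExistsHoro) :
    ∃ η₀ : ℝ, 0 < η₀ ∧ ∀ η : ℝ, 0 < η → η ≤ η₀ → ∃ a : ℝ, 0 < a ∧ ∃ D₀ : ℝ,
    ∀ D : ℝ, D₀ ≤ D → ∀ D₂ : ℝ, ∃ ρ₁ : ℝ, 0 < ρ₁ ∧
    ∀ (Γ Γ' : Subgroup GLI), Disc Γ → Disc Γ' → ∀ (s : ℝ), 0 < s → ∀ (n : ℕ)
      (N : Net Γ η D s (10 * D) n) (N' : Net Γ' η D s (10 * D) n) (φ : Γ ≃* Γ'),
      CloseIso N N' φ ρ₁ → ∃ F F' : X → X,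
        (∀ x y, hd x y ≤ D₂ → |hd (F x) (F y) - hd x y| ≤ a) ∧
        (∀ x y, hd x y ≤ D₂ → |hd (F' x) (F' y) - hd x y| ≤ a) ∧
        (∀ (γ : Γ) x, hd (F (act γ.1 x)) (act (φ γ).1 (F x)) ≤ a) ∧
        (∀ x, hd (F' (F x)) x ≤ a) ∧ (∀ x, hd (F (F' x)) x ≤ a) := by
  obtain ⟨η₁, hη₁, H1⟩ := exists_horo
  obtain ⟨η₂, hη₂, H2⟩ := exists_match
  obtain ⟨a, ha, H3⟩ := rl_near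
  refine ⟨min η₁ η₂, lt_min hη₁ hη₂, fun η hη hle => ⟨a, ha, 24, fun D hD D₂ => ?_⟩⟩
  obtain ⟨ε, hε, hε1, ρ₀, hρ₀, H3⟩ := H3 D hD (max D₂ 0)
  obtain ⟨ρ₁, hρ₁, H2⟩ := H2 η hη (hle.trans (min_le_right _ _)) D hD ε hε
  refine ⟨min ρ₀ ρ₁, lt_min hρ₀ hρ₁, ?_⟩
  intro Γ Γ' hΓ hΓ' s hs n N N' φ hc
  obtain ⟨Ξ, hΞ⟩ := H1 η hη (hle.trans (min_le_left _ _)) Γ hΓ
  obtain ⟨Ξ', hΞ'⟩ := H1 η hη (hle.trans (min_le_left _ _)) Γ' hΓ'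
  have hM := mt_of_closeIso hΓ hΓ' N N' φ hc (isHoro_of hΞ) (isHoro_of hΞ')
  have m1 := H2 (min_le_right _ _) hM
  have m2 := H2 (min_le_right _ _) hM.symm
  have n1 := H3 (min_le_left _ _) hM
  have n2 := H3 (min_le_left _ _) hM.symm
  choose F hF using fun x => rl_total hD hM hε1 m1 x
  choose F' hF' using fun x => rl_total hD hM.symm hε1 m2 x
  have h0 : ∀ x : X, hd x x ≤ max D₂ 0 := fun x => by rw [hd_self]; exact le_max_right _ _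
  refine ⟨F, F', fun x y hxy => ?_, fun x y hxy => ?_, fun γ x => ?_, fun x => ?_, fun x => ?_⟩
  · exact n1 _ _ _ _ (hF x) (hF y) (hxy.trans (le_max_left _ _))
  · exact n2 _ _ _ _ (hF' x) (hF' y) (hxy.trans (le_max_left _ _))
  · have h1 := n1 _ _ _ _ (hF (act γ.1 x)) (rl_eqv hM γ (hF x)) (h0 _)
    rw [hd_self, sub_zero, abs_of_nonneg (hd_nonneg _ _)] at h1
    exact h1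
  · have h1 := n2 _ _ _ _ (hF' (F x)) (rl_symm hM (hF x)) (h0 _)
    rw [hd_self, sub_zero, abs_of_nonneg (hd_nonneg _ _)] at h1
    exact h1
  · have h1 := n1 _ _ _ _ (hF (F' x)) (rl_symm hM.symm (hF' x)) (h0 _)
    rw [hd_self, sub_zero, abs_of_nonneg (hd_nonneg _ _)] at h1
    exact h1

end Pool.Agent.helper7.WB
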