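import Pool.Agent.helper88.WB.ME0
import Pool.Agent.helper41.WB.R2_1
import Pool.Agent.helper46.WB.Z2
import Pool.Agent.helper21.WB.HB
import Pool.Agent.helper21.WB.LibB5
import Pool.Agent.helper46.WB.H1

/-! [ME1] almost every boundary point of a lattice is conical. -/

set_option autoImplicit false
open Matrix MeasureTheory Filter Topology

namespace Pool.Agent.helper88.WB
open Pool.Agent.helper21.WB

namespace ME1

/-- what is needed from `exists_Z` -/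
def ExZ : Prop := ∃ η₀ : ℝ, 0 < η₀ ∧ ∀ η : ℝ, 0 < η → η ≤ η₀ →
    ∀ (Γ : Subgroup GLI) (F : Set X), Lat Γ F → ∃ Z : Finset X,
      (∀ x, x ∉ Deep Γ η → ∃ z ∈ Z, ∃ γ ∈ Γ, hd x (act γ z) ≤ 1)

/-- what is needed from `exists_horo` -/
def ExH : Prop := ∃ η₀ : ℝ, 0 < η₀ ∧ ∀ η : ℝ, 0 < η → η ≤ η₀ → ∀ Γ : Subgroup GLI, Disc Γ →
    ∃ Ξ : Set (I → ℝ), Horo Ξ ∧ (∀ y, y ∈ Deep Γ η ↔ ∃ ξ ∈ Ξ, hb ξ y < 1)

/-- two future null vectors -/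
theorem bl_le {ξ ζ : I → ℝ} (h : NullF ξ) (h' : NullF ζ) : bl ξ ζ ≤ 0 := by
  have n1 := Pool.Agent.helper7.WB.Fl.null_norm h
  have n2 := Pool.Agent.helper7.WB.Fl.null_norm h'
  have cs := cs_spatial (fun i => ξ (Sum.inl i)) (fun i => ζ (Sum.inl i))
  rw [n1, n2, ← mul_pow] at cs
  have := abs_le_of_sq_le_sq cs (mul_pos h.2 h'.2).le
  rw [bl_apply]
  linarith [(abs_le.1 this).2]

theorem nullF_nv (x : E) : NullF (nv x) := ⟨by rw [bl_nv]; simp, nv_o_pos x⟩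

theorem nullF_ninf : NullF ninf := ⟨bl_ninf, by simp [ninf]⟩

theorem hb_hp (ξ : I → ℝ) (x : E) {t : ℝ} (ht : 0 < t) :
    hb ξ (hp x t) = (- bl ξ (nv x)) / t + (- bl ξ ninf) / 2 * t := by
  unfold hb
  rw [lift_hp x ht, bl_smul_right, bl_add_right, bl_smul_right]
  field_simp
  ring

theorem countable_horo {Ξ : Set (I → ℝ)} (hΞ : Horo Ξ) : Ξ.Countable := by
  have : Ξ ⊆ ⋃ n : ℕ, {ξ | ξ ∈ Ξ ∧ ∃ z, hd 0 z ≤ n ∧ hb ξ z ≤ 1} := by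
    intro ξ hξ
    have hn := hΞ.null ξ hξ
    obtain ⟨z, hz⟩ : ∃ z, hb ξ z ≤ 1 := by
      refine ⟨Pool.Agent.helper7.WB.mv ξ (Real.log (hb ξ 0)) 0, ?_⟩
      have hp := hb_pos hn 0
      rw [Pool.Agent.helper7.WB.hb_mv hn, Real.exp_neg, Real.exp_log hp, inv_mul_cancel₀ hp.ne']
    obtain ⟨n, hn⟩ := exists_nat_ge (hd 0 z)
    exact Set.mem_iUnion.2 ⟨n, hξ, z, hn, hz⟩
  exact (Set.countable_iUnion (fun n : ℕ => (hΞ.locfin 0 (n : ℝ)).countable)).mono this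

theorem subsingleton_x {ξ : I → ℝ} (h : NullF ξ) : {x : E | bl ξ (nv x) = 0}.Subsingleton := by
  intro x hx y hy
  have hx' : bl ξ (nv x) = 0 := hx
  have hy' : bl ξ (nv y) = 0 := hy
  have h0 : ξ ≠ 0 := by
    rintro rfl; exact absurd h.2 (by simp)
  obtain ⟨a, ha⟩ := Z2.par_null h0 h.1 (nullF_nv x).1 hx'
  obtain ⟨b, hb⟩ := Z2.par_null h0 h.1 (nullF_nv y).1 hy'
  have h1 : bl (nv x) (nv y) = 0 := by rw [ha, hb, bl_smul_left, bl_smul_right, h.1]; ring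
  rw [bl_nv] at h1
  have h2 : ‖x - y‖ = 0 := by nlinarith [norm_nonneg (x - y)]
  exact sub_eq_zero.1 (norm_eq_zero.1 h2)

end ME1

open ME1

theorem conical_of (hZ : ExZ) (hH : ExH) {Γ : Subgroup GLI} {F₀ : Set X} (hL : Lat Γ F₀) :
    ∃ r : ℝ, ∀ᵐ x : E,
    ∀ ε : ℝ, 0 < ε → ∃ t : ℝ, 0 < t ∧ t < ε ∧ ∃ γ ∈ Γ, hd (hp x t) (act γ 0) ≤ r := by
  obtain ⟨η₁, hη₁, hZ⟩ := hZ
  obtain ⟨η₂, hη₂, hH⟩ := hH
  obtain ⟨Z, hZ⟩ := hZ (min η₁ η₂) (lt_min hη₁ hη₂) (min_le_left _ _) Γ F₀ hL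
  obtain ⟨Ξ, hΞ, hdeep⟩ := hH (min η₁ η₂) (lt_min hη₁ hη₂) (min_le_right _ _) Γ hL.toDisc
  refine ⟨1 + ∑ z ∈ Z, hd z 0, ?_⟩
  have hcount : (⋃ ξ ∈ Ξ, {x : E | bl ξ (nv x) = 0}).Countable :=
    (countable_horo hΞ).biUnion (fun ξ hξ => (subsingleton_x (hΞ.null ξ hξ)).countable)
  have hnull : ∀ᵐ x : E, x ∉ ⋃ ξ ∈ Ξ, {x : E | bl ξ (nv x) = 0} := by
    have := hcount.measure_zero (volume : Measure E)
    exact measure_eq_zero_iff_ae_notMem.1 this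
  filter_upwards [hnull] with x hx
  by_contra hcon
  push Not at hcon
  obtain ⟨ε, hε, hcon⟩ := hcon
  apply hx
  -- all points of the ray are deep
  have hd1 : ∀ t, 0 < t → t < ε → ∃ ξ ∈ Ξ, hb ξ (hp x t) < 1 := by
    intro t ht htε
    rw [← hdeep]
    by_contra hnd
    obtain ⟨z, hz, γ, hγ, hle⟩ := hZ _ hnd
    have h1 := hcon t ht htε γ hγ
    have hG := hL.inG γ hγ
    have h2 := hd_triangle (hp x t) (act γ z) (act γ 0)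
    rw [hd_act hG] at h2
    have h3 : hd z 0 ≤ ∑ z ∈ Z, hd z 0 :=
      Finset.single_le_sum (f := fun z => hd z 0) (fun i _ => hd_nonneg i 0) hz
    linarith
  obtain ⟨ξ₀, hξ₀, hlt₀⟩ := hd1 (ε / 2) (by linarith) (by linarith)
  have hopen : ∀ ξ : I → ℝ, IsOpen {t : ℝ | 0 < t ∧ hb ξ (hp x t) < 1} := by
    intro ξ
    have : {t : ℝ | 0 < t ∧ hb ξ (hp x t) < 1} = Set.Ioi 0 ∩
        (fun t => (- bl ξ (nv x)) / t + (- bl ξ ninf) / 2 * t) ⁻¹' Set.Iio 1 := by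
      ext t
      simp only [Set.mem_ofPred_eq, Set.mem_inter_iff, Set.mem_Ioi, Set.mem_preimage, Set.mem_Iio]
      constructor
      · rintro ⟨h1, h2⟩; rw [hb_hp ξ x h1] at h2; exact ⟨h1, h2⟩
      · rintro ⟨h1, h2⟩; rw [hb_hp ξ x h1]; exact ⟨h1, h2⟩
    rw [this]
    refine ContinuousOn.isOpen_inter_preimage ?_ isOpen_Ioi isOpen_Iio
    refine ContinuousOn.add (ContinuousOn.div continuousOn_const continuousOn_id ?_) (by fun_prop)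
    intro t ht; exact (Set.mem_Ioi.1 ht).ne'
  set u : Set ℝ := {t : ℝ | 0 < t ∧ hb ξ₀ (hp x t) < 1} with hu
  set v : Set ℝ := ⋃ ξ ∈ {ξ | ξ ∈ Ξ ∧ ξ ≠ ξ₀}, {t : ℝ | 0 < t ∧ hb ξ (hp x t) < 1} with hv
  have hvo : IsOpen v := isOpen_biUnion (fun ξ _ => hopen ξ)
  have hdisj : Disjoint u v := by
    rw [Set.disjoint_left]
    rintro t ⟨h1, h2⟩ h3
    simp only [hv, Set.mem_iUnion] at h3
    obtain ⟨ξ, ⟨hξ, hne⟩, h4, h5⟩ := h3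
    exact hne (hΞ.disj ξ hξ ξ₀ hξ₀ (hp x t) h5.le h2.le)
  have hcov : Set.Ioo 0 ε ⊆ u ∪ v := by
    rintro t ⟨h1, h2⟩
    obtain ⟨ξ, hξ, hlt⟩ := hd1 t h1 h2
    by_cases he : ξ = ξ₀
    · left; rw [he] at hlt; exact ⟨h1, hlt⟩
    · right
      simp only [hv, Set.mem_iUnion]
      exact ⟨ξ, ⟨hξ, he⟩, h1, hlt⟩
  have hsub := isPreconnected_Ioo.subset_left_of_subset_union (hopen ξ₀) hvo hdisj hcov
    ⟨ε / 2, ⟨by linarith, by linarith⟩, by linarith, hlt₀⟩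
  have hn := hΞ.null ξ₀ hξ₀
  -- the limit `t → 0`
  have hA : - bl ξ₀ (nv x) ≤ 0 := by
    by_contra hpos
    push Not at hpos
    have hnn : 0 ≤ - bl ξ₀ ninf := by have := bl_le hn nullF_ninf; linarith
    set A := - bl ξ₀ (nv x) with hAdef
    have hm : 0 < min (ε / 2) A := lt_min (by linarith) hpos
    have h1 := (hsub ⟨hm, lt_of_le_of_lt (min_le_left _ _) (by linarith)⟩ : min (ε / 2) A ∈ u).2
    rw [hb_hp ξ₀ x hm] at h1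
    have h2 : 1 ≤ A / min (ε / 2) A := by rw [le_div_iff₀ hm]; simp
    have h3 : 0 ≤ (- bl ξ₀ ninf) / 2 * min (ε / 2) A := by positivity
    linarith
  have hB : 0 ≤ - bl ξ₀ (nv x) := by have := bl_le hn (nullF_nv x); linarith
  exact Set.mem_biUnion hξ₀ (show bl ξ₀ (nv x) = 0 by linarith)

/-- [ME1] from the second clause of `exists_Z` -/
theorem conical_of_exists_Z (hZ : ExZ) {Γ : Subgroup GLI} {F₀ : Set X} (hL : Lat Γ F₀) :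
    ∃ r : ℝ, ∀ᵐ x : E,
    ∀ ε : ℝ, 0 < ε → ∃ t : ℝ, 0 < t ∧ t < ε ∧ ∃ γ ∈ Γ, hd (hp x t) (act γ 0) ≤ r := by
  refine conical_of hZ ?_ hL
  obtain ⟨η₀, hη₀, H⟩ := exists_horo
  refine ⟨η₀, hη₀, fun η h1 h2 Γ hΓ => ?_⟩
  obtain ⟨Ξ, a, -, b, -⟩ := H η h1 h2 Γ hΓ
  exact ⟨Ξ, a, b⟩

end Pool.Agent.helper88.WB
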