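import Pool.Agent.helper41.WB.R2_1
import Pool.Agent.helper80.WB.N2a
import Pool.Agent.helper70.WB.MK
import Pool.Agent.helper36.WB.MK2
import Pool.Agent.helper21.WB.LibB5

/-! [ME2] a lattice has no fixed point on the sphere at infinity: if all elements fix `ξ` then the
vertical translation `mv ξ t` commutes with the group and multiplies the volume by `exp (-3t)`. -/

set_option autoImplicit false
open Matrix MeasureTheory

namespace Pool.Agent.helper88.WB
open Pool.Agent.helper21.WB Pool.Agent.helper7.WB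

namespace ME2

/-- a standard null vector -/
noncomputable def e0 : I → ℝ := Sum.elim (Fin.cons 1 (fun _ => 0)) (fun _ => 1)

theorem nullF_e0 : NullF e0 := by
  constructor
  · rw [bl_apply, Fin.sum_univ_succ]; simp [e0]
  · simp [e0]

/-- `sqrt (1 + |v|²)` -/
noncomputable def c (v : Fin 3 → ℝ) : ℝ := Real.sqrt (1 + ∑ i, v i ^ 2)

theorem c_pos (v : Fin 3 → ℝ) : 0 < c v := Real.sqrt_pos.2 (by positivity)
theorem c_sq (v : Fin 3 → ℝ) : c v ^ 2 = 1 + ∑ i, v i ^ 2 := Real.sq_sqrt (by positivity)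
theorem continuous_c : Continuous c := by unfold c; fun_prop

theorem lift_o_Psi (s : ℝ) (v : Fin 3 → ℝ) : lift (NN.Psi (s, v)) o = c v * Real.cosh s :=
  NN.N2a.sqrt_Psi (s, v)

theorem Psi_zero (s : ℝ) (v : Fin 3 → ℝ) : NN.Psi (s, v) 0 = c v * Real.sinh s := by
  simp [NN.Psi, c]

theorem Psi_succ (s : ℝ) (v : Fin 3 → ℝ) (i : Fin 3) : NN.Psi (s, v) i.succ = v i := by
  simp [NN.Psi]

theorem hb_e0 (s : ℝ) (v : Fin 3 → ℝ) : hb e0 (NN.Psi (s, v)) = c v * Real.exp (-s) := by
  unfold hb
  rw [bl_apply, Fin.sum_univ_succ]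
  simp only [lift_inl, Psi_zero, Psi_succ, lift_o_Psi]
  simp only [e0, Sum.elim_inl, Sum.elim_inr, Fin.cons_zero, Fin.cons_succ]
  rw [Real.cosh_eq, Real.sinh_eq]
  simp
  ring

/-- `mv` in cylindrical coordinates -/
theorem mv_Psi (t s : ℝ) (v : Fin 3 → ℝ) : mv e0 t (NN.Psi (s, v)) =
    NN.Psi (s + (t + Real.log (c (Real.exp (-t) • v)) - Real.log (c v)), Real.exp (-t) • v) := by
  set v' := Real.exp (-t) • v with hv'
  set s' := s + (t + Real.log (c v') - Real.log (c v)) with hs'
  have p1 := c_pos v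
  have p2 := c_pos v'
  ext i
  refine Fin.cases ?_ (fun j => ?_) i
  · rw [Psi_zero]
    unfold mv
    rw [hb_e0, Psi_zero]
    have e1 : e0 (Sum.inl 0) = 1 := by simp [e0]
    rw [e1]
    have h1 : Real.exp s' = Real.exp s * Real.exp t * c v' / c v := by
      rw [hs', Real.exp_add, Real.exp_sub, Real.exp_add, Real.exp_log p1, Real.exp_log p2]
      field_simp
    have h2 : Real.exp (-s') = c v / (Real.exp s * Real.exp t * c v') := by
      rw [Real.exp_neg, h1, inv_div]
    have h3 : c v' ^ 2 = 1 + Real.exp (-t) ^ 2 * (c v ^ 2 - 1) := by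
      rw [c_sq, c_sq, hv']
      simp only [Pi.smul_apply, smul_eq_mul, mul_pow, add_sub_cancel_left]
      rw [Finset.mul_sum]
    rw [Real.sinh_eq s', h1, h2, Real.sinh_eq, Real.sinh_eq, Real.exp_neg s]
    have h4 : Real.exp (-t) = 1 / Real.exp t := by rw [Real.exp_neg]; simp
    rw [h4] at h3 ⊢
    have ps := Real.exp_pos s
    have pt := Real.exp_pos t
    field_simp
    field_simp at h3
    linear_combination (- Real.exp s ^ 2) * h3
  · rw [Psi_succ]
    unfold mv
    rw [Psi_succ]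
    simp [e0, hv']

/-- `mv e0 t` in cylindrical coordinates -/
noncomputable def Th (t : ℝ) (p : ℝ × (Fin 3 → ℝ)) : ℝ × (Fin 3 → ℝ) :=
  (p.1 + (t + Real.log (c (Real.exp (-t) • p.2)) - Real.log (c p.2)), Real.exp (-t) • p.2)

theorem continuous_g (t : ℝ) : Continuous (fun v : Fin 3 → ℝ =>
    t + Real.log (c (Real.exp (-t) • v)) - Real.log (c v)) := by
  have h1 : Continuous (fun v : Fin 3 → ℝ => Real.log (c (Real.exp (-t) • v))) :=
    (continuous_c.comp (continuous_const_smul _)).log (fun v => (c_pos _).ne')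
  have h2 : Continuous (fun v : Fin 3 → ℝ => Real.log (c v)) :=
    continuous_c.log (fun v => (c_pos _).ne')
  exact (continuous_const.add h1).sub h2

theorem map_Th (t : ℝ) : Measure.map (Th t) (volume : Measure (ℝ × (Fin 3 → ℝ))) =
    ENNReal.ofReal (Real.exp (3 * t)) • volume := by
  set g : (Fin 3 → ℝ) → ℝ := fun v => t + Real.log (c (Real.exp (-t) • v)) - Real.log (c v) with hg
  have hgc : Continuous g := continuous_g t
  set r := Real.exp (-t) with hr
  have hr0 : r ≠ 0 := (Real.exp_pos _).ne'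
  -- the shear
  have hs : MeasurePreserving (fun p : (Fin 3 → ℝ) × ℝ => (p.1, p.2 + g p.1))
      ((volume : Measure (Fin 3 → ℝ)).prod (volume : Measure ℝ))
      ((volume : Measure (Fin 3 → ℝ)).prod (volume : Measure ℝ)) := by
    refine (MeasurePreserving.id (volume : Measure (Fin 3 → ℝ))).skew_product
      (g := fun v s => s + g v) ?_ ?_
    · exact (continuous_snd.add (hgc.comp continuous_fst)).measurable
    · refine Filter.Eventually.of_forall (fun v => ?_)
      exact (measurePreserving_add_right (volume : Measure ℝ) (g v)).map_eq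
  have hsc : Measure.map (Prod.map (fun v : Fin 3 → ℝ => r • v) (id : ℝ → ℝ))
      ((volume : Measure (Fin 3 → ℝ)).prod (volume : Measure ℝ)) =
      ENNReal.ofReal (Real.exp (3 * t)) • ((volume : Measure (Fin 3 → ℝ)).prod (volume : Measure ℝ)) := by
    rw [← Measure.map_prod_map _ _ (measurable_const_smul r) measurable_id, Measure.map_id,
      Measure.map_addHaar_smul _ hr0, Measure.prod_smul_left]
    congr 2
    rw [Module.finrank_fin_fun, abs_of_pos (by positivity), hr, ← Real.exp_nat_mul, ← Real.exp_neg]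
    congr 1; push_cast; ring
  have e : Th t = Prod.swap ∘ (Prod.map (fun v : Fin 3 → ℝ => r • v) (id : ℝ → ℝ)) ∘
      (fun p : (Fin 3 → ℝ) × ℝ => (p.1, p.2 + g p.1)) ∘ Prod.swap := by
    funext p; rfl
  have m2 : Measurable (fun p : (Fin 3 → ℝ) × ℝ => (p.1, p.2 + g p.1)) := hs.measurable
  have m3 : Measurable (Prod.map (fun v : Fin 3 → ℝ => r • v) (id : ℝ → ℝ)) :=
    (measurable_const_smul r).prodMap measurable_id
  have sw1 : Measure.map Prod.swap (volume : Measure (ℝ × (Fin 3 → ℝ))) =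
      (volume : Measure (Fin 3 → ℝ)).prod (volume : Measure ℝ) :=
    (Measure.measurePreserving_swap (μ := (volume : Measure ℝ)) (ν := (volume : Measure (Fin 3 → ℝ)))).map_eq
  have sw2 : Measure.map Prod.swap ((volume : Measure (Fin 3 → ℝ)).prod (volume : Measure ℝ)) =
      (volume : Measure (ℝ × (Fin 3 → ℝ))) :=
    (Measure.measurePreserving_swap (μ := (volume : Measure (Fin 3 → ℝ))) (ν := (volume : Measure ℝ))).map_eq
  rw [e, ← Measure.map_map measurable_swap (m3.comp (m2.comp measurable_swap)),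
    ← Measure.map_map m3 (m2.comp measurable_swap), ← Measure.map_map m2 measurable_swap, sw1,
    hs.map_eq, hsc, Measure.map_smul, sw2]

theorem measurable_Th (t : ℝ) : Measurable (Th t) := by
  refine Measurable.prodMk ?_ ?_
  · exact (continuous_fst.add ((continuous_g t).comp continuous_snd)).measurable
  · exact ((measurable_const_smul (Real.exp (-t))).comp measurable_snd)

theorem continuous_mv {ξ : I → ℝ} (h : NullF ξ) (t : ℝ) : Continuous (mv ξ t) := by
  unfold mv hb
  have h1 : Continuous (fun y : X => - bl ξ (lift y)) := by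
    have : (fun y : X => - bl ξ (lift y)) = fun y => lift y o * ξ o - ∑ i : Fin 4, ξ (Sum.inl i) * y i := by
      funext y; rw [bl_apply]; simp only [lift_inl]; ring
    rw [this]
    have := continuous_lift
    fun_prop
  refine continuous_pi (fun i => ?_)
  refine Continuous.add (by fun_prop) ?_
  refine Continuous.mul (Continuous.div continuous_const h1 (fun y => (Fl.pos h y).ne')) continuous_const

theorem map_mv_e0 (t : ℝ) : Measure.map (mv e0 t) μ = ENNReal.ofReal (Real.exp (3 * t)) • μ := by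
  have e : mv e0 t ∘ NN.Psi = NN.Psi ∘ Th t := by
    funext p; exact mv_Psi t p.1 p.2
  rw [← NN.mp_Psi.map_eq, Measure.map_map (continuous_mv nullF_e0 t).measurable NN.mp_Psi.measurable,
    e, ← Measure.map_map NN.mp_Psi.measurable (measurable_Th t), map_Th, Measure.map_smul]

theorem map_mv {ξ : I → ℝ} (h : NullF ξ) {g : GLI} (hg : InG g) {a : ℝ} (ha : 0 < a)
    (he : g.val *ᵥ ξ = a • e0) (t : ℝ) :
    Measure.map (mv ξ t) μ = ENNReal.ofReal (Real.exp (3 * t)) • μ := by
  have e : mv ξ t = act g⁻¹ ∘ mv e0 t ∘ act g := by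
    funext y
    have := act_mv h hg t y
    rw [he, mv_smul ha] at this
    show mv ξ t y = act g⁻¹ (mv e0 t (act g y))
    rw [← this, act_inv_act hg]
  have m1 := (measurePreserving_act hg)
  have m2 := (measurePreserving_act hg.inv)
  have m3 := (continuous_mv nullF_e0 t).measurable
  rw [e, ← Measure.map_map m2.measurable (m3.comp m1.measurable), ← Measure.map_map m3 m1.measurable,
    m1.map_eq, map_mv_e0, Measure.map_smul, m2.map_eq]

theorem exists_to_e0 {u : Fin 4 → ℝ} (hu : u ∈ Sph) : ∃ g : GLI, InG g ∧ ∃ a : ℝ, 0 < a ∧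
    g.val *ᵥ nl u = a • e0 := by
  have he : nl (kl e0) = e0 := by
    rw [nl_kl (by simp [e0])]; simp [e0]
  have hs : kl e0 ∈ Sph := by
    rw [mk_mem_Sph_iff]
    have := bl_nl (kl e0) (kl e0)
    rw [he, nullF_e0.1] at this
    linarith
  obtain ⟨g1, hg1, h1⟩ := exists_to_pinf hu
  obtain ⟨g2, hg2, h2⟩ := exists_to_pinf hs
  refine ⟨g2⁻¹ * g1, hg2.inv.mul hg1, _, mulVec_nl_pos (hg2.inv.mul hg1) (Sph_subset_Bal hu), ?_⟩
  have h3 : kact (g2⁻¹ * g1) u = kl e0 := by
    rw [kact_mul hg2.inv hg1 (Sph_subset_Bal hu), h1, ← h2,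
      ← kact_mul hg2.inv hg2 (Sph_subset_Bal hs), inv_mul_cancel, kact_one]
  conv_lhs => rw [mulVec_nl (hg2.inv.mul hg1) (Sph_subset_Bal hu), h3, he]

end ME2

open ME2

theorem no_common_fixed {Γ : Subgroup GLI} {F₀ : Set X} (hL : Lat Γ F₀) {u : Fin 4 → ℝ}
    (hu : u ∈ Sph) : ∃ γ ∈ Γ, kact γ u ≠ u := by
  by_contra hcon
  push Not at hcon
  have huB := Sph_subset_Bal hu
  have hn : NullF (nl u) := by
    refine ⟨?_, by simp [nl]⟩
    rw [bl_nl, mk_mem_Sph_iff.1 hu]; simp
  obtain ⟨g, hg, a, ha, he⟩ := exists_to_e0 hu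
  have hmap := map_mv hn hg ha he
  -- the vertical translation commutes with the group
  have hcomm : ∀ γ ∈ Γ, ∀ (t : ℝ) (y : X), act γ (mv (nl u) t y) = mv (nl u) t (act γ y) := by
    intro γ hγ t y
    have hG := hL.inG γ hγ
    rw [act_mv hn hG, mulVec_nl hG huB, hcon γ hγ, mv_smul (mulVec_nl_pos hG huB)]
  have hc1 := continuous_mv hn (-1)
  have hF := hL.fd
  -- the translated fundamental domain
  set F' : Set X := mv (nl u) (-1) ⁻¹' F₀ with hF'
  have hinv : ∀ y, mv (nl u) 1 (mv (nl u) (-1) y) = y := by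
    intro y; rw [mv_mv hn]; norm_num; exact mv_zero y
  have hinv' : ∀ y, mv (nl u) (-1) (mv (nl u) 1 y) = y := by
    intro y; rw [mv_mv hn]; norm_num; exact mv_zero y
  have hFD : IsFD Γ F' := by
    refine ⟨hc1.measurable hF.1, ?_⟩
    have h1 := hF.2
    have hac : Measure.QuasiMeasurePreserving (mv (nl u) (-1)) μ μ := by
      refine ⟨hc1.measurable, ?_⟩
      rw [hmap]
      exact Measure.smul_absolutelyContinuous
    have h2 := hac.ae h1
    filter_upwards [h2] with y hy
    obtain ⟨z, ⟨hz, γ, hγ, hγz⟩, huniq⟩ := hy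
    refine ⟨mv (nl u) 1 z, ⟨?_, γ, hγ, ?_⟩, ?_⟩
    · show mv (nl u) (-1) (mv (nl u) 1 z) ∈ F₀
      rw [hinv']; exact hz
    · rw [← hγz, ← hcomm γ hγ, hinv]
    · rintro w ⟨hw, δ, hδ, hδw⟩
      have := huniq (mv (nl u) (-1) w) ⟨hw, δ, hδ, by rw [← hδw, hcomm δ hδ]⟩
      rw [← this, hinv]
  have h3 := fd_indep hL.toDisc hF hFD (fun _ => 1) measurable_const (fun _ _ _ => rfl)
  simp only [lintegral_const, one_mul, Measure.restrict_apply MeasurableSet.univ, Set.univ_inter] at h3
  have h4 : μ F' = ENNReal.ofReal (Real.exp (3 * (-1))) * μ F₀ := by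
    rw [hF', ← Measure.map_apply hc1.measurable hF.1, hmap]
    simp
  have h5 := fd_nonempty hL.toDisc hF
  have h6 := hL.fin
  rw [h4] at h3
  have h7 : (μ F₀).toReal = Real.exp (3 * (-1)) * (μ F₀).toReal := by
    conv_lhs => rw [h3]
    rw [ENNReal.toReal_mul, ENNReal.toReal_ofReal (Real.exp_pos _).le]
  have h8 : 0 < (μ F₀).toReal := ENNReal.toReal_pos h5.ne' h6.ne
  have h9 : Real.exp (3 * (-1)) < 1 := by
    rw [← Real.exp_zero]; exact Real.exp_lt_exp.2 (by norm_num)
  nlinarith

end Pool.Agent.helper88.WB
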