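import Pool.Agent.helper41.WB.R2_1
import Pool.Agent.helper21.WB.LibB

/-! [R2-10] related points: totality, symmetry, equivariance; `Mt` from nets. -/

set_option autoImplicit false
open Matrix MeasureTheory

namespace Pool.Agent.helper7.WB
open Pool.Agent.helper21.WB Pool.Agent.helper7.WB

theorem tr_inG {P : Type} {q q' : P → GLI} (h : ∀ σ, InG (q σ)) (h' : ∀ σ, InG (q' σ)) (σ : P) :
    InG (Tr q q' σ) := (h' σ).mul (h σ).inv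

theorem tr_inv {P : Type} (q q' : P → GLI) (σ : P) : (Tr q q' σ)⁻¹ = Tr q' q σ := by
  unfold Tr; group

theorem act_tr {P : Type} {q q' : P → GLI} (h : ∀ σ, InG (q σ)) (h' : ∀ σ, InG (q' σ)) (σ : P) :
    act (Tr q q' σ) (act (q σ) 0) = act (q' σ) 0 := by
  rw [← act_mul (h σ)]; unfold Tr; congr 1; group

theorem act_tr_tr {P : Type} {q q' : P → GLI} (h : ∀ σ, InG (q σ)) (h' : ∀ σ, InG (q' σ)) (σ : P)
    (y : X) : act (Tr q' q σ) (act (Tr q q' σ) y) = y := by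
  rw [← act_mul (tr_inG h h' σ), ← tr_inv, inv_mul_cancel, act_one]

theorem rl_symm' {P : Type} {q q' : P → GLI}
    {Ξ Ξ' : Set (I → ℝ)} {D ε : ℝ} (hq : ∀ σ, InG (q σ)) (hq' : ∀ σ, InG (q' σ)) {x x' : X}
    (hx : Rl q q' Ξ Ξ' D ε x x') : Rl q' q Ξ' Ξ D ε x' x := by
  obtain ⟨σ, y, hy, h⟩ := hx
  refine ⟨σ, act (Tr q q' σ) y, ?_, ?_⟩
  · rw [← act_tr hq hq' σ, hd_act (tr_inG hq hq' σ)]; exact hy
  · rcases h with ⟨h1, h2⟩ | ⟨ξ, hξ, ξ', hξ', hm, h1, h2, t, ht, h3, h4⟩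
    · left
      refine ⟨h2, ?_⟩
      rw [act_tr_tr hq hq', h1]
    · right
      refine ⟨ξ', hξ', ξ, hξ, ⟨hm.2, hm.1⟩, h2, ?_, t, ht, h4, ?_⟩
      · rw [act_tr_tr hq hq']; exact h1
      · rw [act_tr_tr hq hq']; exact h3

theorem rl_symm {Γ Γ' : Subgroup GLI} {φ : Γ ≃* Γ'} {P : Type} {q q' : P → GLI}
    {Ξ Ξ' : Set (I → ℝ)} {η D ρ ε : ℝ} (h : Mt Γ Γ' φ q q' Ξ Ξ' η D ρ) {x x' : X}
    (hx : Rl q q' Ξ Ξ' D ε x x') : Rl q' q Ξ' Ξ D ε x' x := rl_symm' h.mf.inG h.mf.inG' hx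

theorem hb_act' {ξ : I → ℝ} {g : GLI} (hg : InG g) (y : X) : hb (g.val *ᵥ ξ) (act g y) = hb ξ y := by
  unfold hb; rw [lift_act hg, bl_mulVec hg.1]

/-- the transition element of a translated index -/
theorem tr_eqv {Γ Γ' : Subgroup GLI} {φ : Γ ≃* Γ'} {P : Type} {q q' : P → GLI} (γ : Γ) {σ τ : P}
    (h1 : q τ = γ.1 * q σ) (h2 : q' τ = (φ γ).1 * q' σ) :
    Tr q q' τ = (φ γ).1 * Tr q q' σ * (γ.1)⁻¹ := by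
  unfold Tr; rw [h1, h2]; group

theorem inv_val_mulVec {g : GLI} (v : I → ℝ) : (g⁻¹ : GLI).val *ᵥ (g.val *ᵥ v) = v := by
  rw [Matrix.mulVec_mulVec, ← Units.val_mul, inv_mul_cancel, Units.val_one, Matrix.one_mulVec]

theorem val_mulVec_inv {g : GLI} (v : I → ℝ) : g.val *ᵥ ((g⁻¹ : GLI).val *ᵥ v) = v := by
  rw [Matrix.mulVec_mulVec, ← Units.val_mul, mul_inv_cancel, Units.val_one, Matrix.one_mulVec]

theorem mul_val_mulVec {g h : GLI} (v : I → ℝ) : (g * h : GLI).val *ᵥ v = g.val *ᵥ (h.val *ᵥ v) := by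
  rw [Units.val_mul, Matrix.mulVec_mulVec]

theorem mh_eqv {Γ Γ' : Subgroup GLI} {φ : Γ ≃* Γ'} {P : Type} {q q' : P → GLI} {Ξ Ξ' : Set (I → ℝ)}
    {η D ρ ε : ℝ} (h : Mt Γ Γ' φ q q' Ξ Ξ' η D ρ) (γ : Γ) {ξ ξ' : I → ℝ} (hm : Mh q q' D ε ξ ξ') :
    Mh q q' D ε (γ.1.val *ᵥ ξ) ((φ γ).1.val *ᵥ ξ') := by
  intro y hy σ hσ
  have hγ := h.disc.inG _ γ.2
  have hγ' := h.disc'.inG _ (φ γ).2
  obtain ⟨τ, e1, e2⟩ := h.eqv γ⁻¹ σ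
  have hT := tr_eqv (φ := φ) γ⁻¹ e1 e2
  have e1' : act (q τ) 0 = act (γ.1)⁻¹ (act (q σ) 0) := by
    rw [e1, act_mul (h.mf.inG σ)]; rfl
  have k1 : hb ξ (act (γ.1)⁻¹ y) = 1 := by
    rw [← hb_act' hγ, act_act_inv hγ, hy]
  have k2 : hd (act (γ.1)⁻¹ y) (act (q τ) 0) ≤ D / 6 := by
    rw [e1', hd_act hγ.inv]; exact hσ
  obtain ⟨m1, m2⟩ := hm _ k1 τ k2
  have hTσ := tr_inG h.mf.inG h.mf.inG' σ
  have hφi : ((φ γ⁻¹ : Γ') : GLI) = ((φ γ : Γ') : GLI)⁻¹ := by rw [map_inv]; rfl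
  have hγi : ((γ⁻¹ : Γ) : GLI) = ((γ : Γ) : GLI)⁻¹ := rfl
  rw [hφi, hγi, inv_inv] at hT
  -- `T_τ = φ(γ)⁻¹ T_σ γ`
  have k3 : act (Tr q q' τ) (act (γ.1)⁻¹ y) = act ((φ γ).1)⁻¹ (act (Tr q q' σ) y) := by
    rw [hT, act_mul hγ, act_act_inv hγ, act_mul hTσ]
  have k4 : (Tr q q' τ).val *ᵥ ξ = (((φ γ).1)⁻¹ : GLI).val *ᵥ ((Tr q q' σ).val *ᵥ (γ.1.val *ᵥ ξ)) := by
    rw [hT, mul_val_mulVec, mul_val_mulVec]
  refine ⟨?_, ?_⟩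
  · have : hb ((φ γ).1.val *ᵥ ξ') (act (Tr q q' σ) y) = hb ξ' (act (Tr q q' τ) (act (γ.1)⁻¹ y)) := by
      rw [k3, ← hb_act' (ξ := ξ') hγ' (act ((φ γ).1)⁻¹ _), act_act_inv hγ']
    rw [this]; exact m1
  · have : bl ((Tr q q' σ).val *ᵥ (γ.1.val *ᵥ ξ)) ((φ γ).1.val *ᵥ ξ') = bl ((Tr q q' τ).val *ᵥ ξ) ξ' := by
      rw [k4, ← bl_mulVec hγ'.1 (_ *ᵥ _) ξ', val_mulVec_inv]
    rw [this]; exact m2

theorem mc_eqv {Γ Γ' : Subgroup GLI} {φ : Γ ≃* Γ'} {P : Type} {q q' : P → GLI} {Ξ Ξ' : Set (I → ℝ)}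
    {η D ρ ε : ℝ} (h : Mt Γ Γ' φ q q' Ξ Ξ' η D ρ) (γ : Γ) {ξ ξ' : I → ℝ} (hm : Mc q q' D ε ξ ξ') :
    Mc q q' D ε (γ.1.val *ᵥ ξ) ((φ γ).1.val *ᵥ ξ') := by
  refine ⟨mh_eqv h γ hm.1, ?_⟩
  have := mh_eqv h.symm (φ γ) hm.2
  simpa using this

theorem rl_eqv {Γ Γ' : Subgroup GLI} {φ : Γ ≃* Γ'} {P : Type} {q q' : P → GLI}
    {Ξ Ξ' : Set (I → ℝ)} {η D ρ ε : ℝ} (h : Mt Γ Γ' φ q q' Ξ Ξ' η D ρ) (γ : Γ) {x x' : X}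
    (hx : Rl q q' Ξ Ξ' D ε x x') : Rl q q' Ξ Ξ' D ε (act γ.1 x) (act (φ γ).1 x') := by
  have hγ := h.disc.inG _ γ.2
  have hγ' := h.disc'.inG _ (φ γ).2
  obtain ⟨σ, y, hy, hx⟩ := hx
  obtain ⟨τ, e1, e2⟩ := h.eqv γ σ
  have hT := tr_eqv (φ := φ) γ e1 e2
  have e1' : act (q τ) 0 = act (γ.1) (act (q σ) 0) := by
    rw [e1, act_mul (h.mf.inG σ)]
  have hTσ := tr_inG h.mf.inG h.mf.inG' σ
  have k3 : act (Tr q q' τ) (act γ.1 y) = act (φ γ).1 (act (Tr q q' σ) y) := by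
    rw [hT, act_mul hγ.inv, act_inv_act hγ, act_mul hTσ]
  refine ⟨τ, act γ.1 y, ?_, ?_⟩
  · rw [e1', hd_act hγ]; exact hy
  · rcases hx with ⟨h1, h2⟩ | ⟨ξ, hξ, ξ', hξ', hm, h1, h2, t, ht, h3, h4⟩
    · left
      rw [k3, h1, h2]; exact ⟨rfl, rfl⟩
    · right
      refine ⟨_, h.horo.inv _ γ.2 ξ hξ, _, h.horo'.inv _ (φ γ).2 ξ' hξ', mc_eqv h γ hm, ?_, ?_, t, ht,
        ?_, ?_⟩
      · rw [hb_act' hγ]; exact h1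
      · rw [k3, hb_act' hγ']; exact h2
      · rw [h3, act_mv (h.horo.horo.null ξ hξ) hγ]
      · rw [k3, h4, act_mv (h.horo'.horo.null ξ' hξ') hγ']

theorem hb_pos' {ξ : I → ℝ} (h : NullF ξ) (y : X) : 0 < hb ξ y := by
  have h0 := lift_o_pos y
  have := bl_neg (v := lift y) (w := ξ) (by rw [bl_lift]; norm_num) (by linarith) h.1.le h.2
  unfold hb; rw [bl_comm]; linarith

/-- a point of a horosphere lies outside the horoballs -/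
theorem out_of_hb_eq {Ξ : Set (I → ℝ)} (h : Horo Ξ) {ξ : I → ℝ} (hξ : ξ ∈ Ξ) {y : X}
    (hy : hb ξ y = 1) : y ∈ Out Ξ := by
  intro ζ hζ
  by_contra hlt
  have := h.disj ξ hξ ζ hζ y hy.le (not_le.1 hlt).le
  subst this
  exact hlt hy.ge

theorem rl_total {Γ Γ' : Subgroup GLI} {φ : Γ ≃* Γ'} {P : Type} {q q' : P → GLI}
    {Ξ Ξ' : Set (I → ℝ)} {η D ρ ε : ℝ} (hD : 24 ≤ D) (h : Mt Γ Γ' φ q q' Ξ Ξ' η D ρ) (hε : ε ≤ 1)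
    (hm : ∀ ξ ∈ Ξ, ∃ ξ' ∈ Ξ', Mc q q' D ε ξ ξ') (x : X) : ∃ x', Rl q q' Ξ Ξ' D ε x x' := by
  by_cases hx : x ∈ Out Ξ
  · obtain ⟨σ, hσ⟩ := h.dense x hx
    exact ⟨_, σ, x, hσ.trans (by linarith), Or.inl ⟨rfl, rfl⟩⟩
  · have : ∃ ξ ∈ Ξ, hb ξ x < 1 := by
      by_contra hc
      push Not at hc
      exact hx hc
    obtain ⟨ξ, hξ, hlt⟩ := this
    have hn := h.horo.horo.null ξ hξ
    have hp := hb_pos' hn x
    have hlog : Real.log (hb ξ x) < 0 := Real.log_neg hp hlt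
    set y := mv ξ (Real.log (hb ξ x)) x with hydef
    have hy : hb ξ y = 1 := by
      rw [hydef, hb_mv hn, Real.exp_neg, Real.exp_log hp, inv_mul_cancel₀ hp.ne']
    obtain ⟨σ, hσ⟩ := h.dense y (out_of_hb_eq h.horo.horo hξ hy)
    obtain ⟨ξ', hξ', hc⟩ := hm ξ hξ
    have k := (hc.1 y hy σ (hσ.trans (by linarith))).1
    refine ⟨_, σ, y, hσ.trans (by linarith), Or.inr ⟨ξ, hξ, ξ', hξ', hc, ?_, k.trans hε,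
      - Real.log (hb ξ x), by linarith, ?_, rfl⟩⟩
    · rw [hy]; simp
    · rw [hydef, mv_mv hn, neg_add_cancel, mv_zero]

theorem gd_mul_left {g a b : GLI} : gd (g * a) (g * b) = gd a b := by
  unfold gd gch
  have : (g * a)⁻¹ * (g * b) = a⁻¹ * b := by group
  rw [this]

/-- the situation `Mt` from nets -/
theorem mt_of_closeIso {Γ Γ' : Subgroup GLI} (hΓ : Disc Γ) (hΓ' : Disc Γ') {η D s ρ : ℝ} {n : ℕ}
    (N : Net Γ η D s (10 * D) n) (N' : Net Γ' η D s (10 * D) n) (φ : Γ ≃* Γ')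
    (hc : CloseIso N N' φ ρ) {Ξ Ξ' : Set (I → ℝ)} (hΞ : IsHoro Γ η Ξ) (hΞ' : IsHoro Γ' η Ξ') :
    Mt Γ Γ' φ (fun σ : Γ × Fin n => σ.1.1 * N.p σ.2) (fun σ : Γ × Fin n => (φ σ.1).1 * N'.p σ.2)
      Ξ Ξ' η D ρ where
  disc := hΓ
  disc' := hΓ'
  mf := by
    refine ⟨fun σ => (hΓ.inG _ σ.1.2).mul (N.mem _), fun σ => (hΓ'.inG _ (φ σ.1).2).mul (N'.mem _),
      fun σ τ hst => ?_, fun σ τ hst => ?_⟩
    · have e1 : (σ.1.1 * N.p σ.2)⁻¹ * (τ.1.1 * N.p τ.2)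
          = (N.p σ.2)⁻¹ * (σ.1⁻¹ * τ.1 : Γ).1 * N.p τ.2 := by
        push_cast; group
      have e2 : ((φ σ.1).1 * N'.p σ.2)⁻¹ * ((φ τ.1).1 * N'.p τ.2)
          = (N'.p σ.2)⁻¹ * (φ (σ.1⁻¹ * τ.1)).1 * N'.p τ.2 := by
        rw [map_mul, map_inv]; push_cast; group
      have e3 : gd (N.p σ.2) ((σ.1⁻¹ * τ.1 : Γ).1 * N.p τ.2) ≤ D / 2 := by
        have : gd (σ.1.1 * N.p σ.2) (σ.1.1 * ((σ.1⁻¹ * τ.1 : Γ).1 * N.p τ.2)) ≤ D / 2 := by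
          have e : σ.1.1 * ((σ.1⁻¹ * τ.1 : Γ).1 * N.p τ.2) = τ.1.1 * N.p τ.2 := by
            push_cast; group
          rw [e]; exact hst
        rwa [gd_mul_left] at this
      simp only [e1, e2]
      exact hc.1 _ _ _ e3
    · have e1 : (σ.1.1 * N.p σ.2)⁻¹ * (τ.1.1 * N.p τ.2)
          = (N.p σ.2)⁻¹ * (φ.symm (φ (σ.1⁻¹ * τ.1))).1 * N.p τ.2 := by
        rw [MulEquiv.symm_apply_apply]; push_cast; group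
      have e2 : ((φ σ.1).1 * N'.p σ.2)⁻¹ * ((φ τ.1).1 * N'.p τ.2)
          = (N'.p σ.2)⁻¹ * (φ (σ.1⁻¹ * τ.1)).1 * N'.p τ.2 := by
        rw [map_mul, map_inv]; push_cast; group
      have e3 : gd (N'.p σ.2) ((φ (σ.1⁻¹ * τ.1)).1 * N'.p τ.2) ≤ D / 2 := by
        have : gd ((φ σ.1).1 * N'.p σ.2) ((φ σ.1).1 * ((φ (σ.1⁻¹ * τ.1)).1 * N'.p τ.2)) ≤ D / 2 := by
          have e : (φ σ.1).1 * ((φ (σ.1⁻¹ * τ.1)).1 * N'.p τ.2) = (φ τ.1).1 * N'.p τ.2 := by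
            rw [map_mul, map_inv]; push_cast; group
          rw [e]; exact hst
        rwa [gd_mul_left] at this
      simp only [e1, e2]
      exact hc.2 _ _ _ e3
  horo := hΞ
  horo' := hΞ'
  eqv := fun γ σ => ⟨(γ * σ.1, σ.2), by push_cast; rw [mul_assoc], by
    rw [map_mul]; push_cast; rw [mul_assoc]⟩
  out := fun σ => by
    intro ξ hξ
    by_contra hlt
    have h1 : act (σ.1.1 * N.p σ.2) 0 ∈ Deep Γ η := (hΞ.deep _).2 ⟨ξ, hξ, not_le.1 hlt⟩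
    rw [act_mul (N.mem _)] at h1
    apply N.out σ.2
    obtain ⟨δ, hδ, hli⟩ := h1
    rw [hΞ.deep] 
    obtain ⟨ζ, hζ, hζ1⟩ := (hΞ.deep _).1 (show act σ.1.1 (act (N.p σ.2) 0) ∈ Deep Γ η from ⟨δ, hδ, hli⟩)
    refine ⟨(σ.1.1⁻¹ : GLI).val *ᵥ ζ, hΞ.inv _ (Γ.inv_mem σ.1.2) ζ hζ, ?_⟩
    have hγ := hΓ.inG _ σ.1.2
    rw [← hb_act' hγ, val_mulVec_inv]; exact hζ1
  out' := fun σ => by
    intro ξ hξ
    by_contra hlt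
    have h1 : act ((φ σ.1).1 * N'.p σ.2) 0 ∈ Deep Γ' η := (hΞ'.deep _).2 ⟨ξ, hξ, not_le.1 hlt⟩
    rw [act_mul (N'.mem _)] at h1
    apply N'.out σ.2
    obtain ⟨δ, hδ, hli⟩ := h1
    rw [hΞ'.deep] 
    obtain ⟨ζ, hζ, hζ1⟩ := (hΞ'.deep _).1
      (show act (φ σ.1).1 (act (N'.p σ.2) 0) ∈ Deep Γ' η from ⟨δ, hδ, hli⟩)
    refine ⟨((φ σ.1).1⁻¹ : GLI).val *ᵥ ζ, hΞ'.inv _ (Γ'.inv_mem (φ σ.1).2) ζ hζ, ?_⟩
    have hγ := hΓ'.inG _ (φ σ.1).2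
    rw [← hb_act' hγ, val_mulVec_inv]; exact hζ1
  dense := fun x hx => by
    have : x ∉ Deep Γ η := by
      rw [hΞ.deep]; rintro ⟨ξ, hξ, hlt⟩; exact absurd (hx ξ hξ) (not_le.2 hlt)
    obtain ⟨i, γ, hγ, hd⟩ := N.dense x this
    exact ⟨(⟨γ, hγ⟩, i), hd⟩
  dense' := fun x hx => by
    have : x ∉ Deep Γ' η := by
      rw [hΞ'.deep]; rintro ⟨ξ, hξ, hlt⟩; exact absurd (hx ξ hξ) (not_le.2 hlt)
    obtain ⟨i, γ, hγ, hd⟩ := N'.dense x this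
    exact ⟨(φ.symm ⟨γ, hγ⟩, i), by simpa using hd⟩

end Pool.Agent.helper7.WB
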