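import Pool.Agent.helper7.WB.R2_10
import Pool.Agent.helper22.WB.R2_8
import Pool.Agent.helper9.WB.R2_4T
import Pool.Agent.helper21.WB.HB
import Pool.Agent.helper21.WB.LibB

/-! [R2-9] related points: near isometry. -/

set_option autoImplicit false
open Matrix MeasureTheory

namespace Pool.Agent.helper7.WB
namespace T9
open Pool.Agent.helper21.WB

theorem cosh_add_le (s t : ℝ) : Real.cosh (s + t) ≤ Real.exp |t| * Real.cosh s := by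
  rw [Real.cosh_add]
  have h1 : Real.sinh s * Real.sinh t ≤ Real.cosh s * Real.sinh |t| := by
    have a1 : |Real.sinh s| ≤ Real.cosh s := by
      rw [abs_le]; constructor
      · have := Real.exp_pos s; rw [Real.cosh_eq, Real.sinh_eq]; linarith
      · have := Real.exp_pos (-s); rw [Real.cosh_eq, Real.sinh_eq]; linarith
    have a2 : |Real.sinh t| = Real.sinh |t| := by
      rcases le_total 0 t with h | h
      · rw [abs_of_nonneg (Real.sinh_nonneg_iff.2 h), abs_of_nonneg h]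
      · rw [abs_of_nonpos (Real.sinh_nonpos_iff.2 h), abs_of_nonpos h, Real.sinh_neg]
    calc Real.sinh s * Real.sinh t ≤ |Real.sinh s * Real.sinh t| := le_abs_self _
      _ = |Real.sinh s| * |Real.sinh t| := abs_mul _ _
      _ ≤ Real.cosh s * Real.sinh |t| := by
          rw [a2]; exact mul_le_mul_of_nonneg_right a1 (Real.sinh_nonneg_iff.2 (abs_nonneg t))
  have h2 : Real.exp |t| = Real.cosh t + Real.sinh |t| := by
    rw [← Real.cosh_abs t, Real.cosh_add_sinh]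
  rw [h2]; linarith

/-- comparison constant -/
noncomputable def M (K : ℝ) : ℝ := Real.exp 4 + Real.exp 4 * K ^ 2 * (2 + Real.exp 2)

theorem ch_comp {ξ ξ' : I → ℝ} (hn : NullF ξ) (hn' : NullF ξ') {x y x' y' : X} {K : ℝ} (hK : 1 ≤ K)
    (h1 : |Real.log (hb ξ' x') - Real.log (hb ξ x)| ≤ 2)
    (h2 : |Real.log (hb ξ' y') - Real.log (hb ξ y)| ≤ 2)
    (h3 : hb ξ x ≤ Real.exp 1) (h4 : hb ξ y ≤ Real.exp 1)
    (h5 : fl ξ' x' y' ≤ K * (fl ξ x y + 1)) : ch x' y' ≤ M K * ch x y := by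
  have p1 := hb_pos' hn x
  have p2 := hb_pos' hn y
  have p3 := hb_pos' hn' x'
  have p4 := hb_pos' hn' y'
  have e1 := ch_eq_fl hn x y
  have e2 := ch_eq_fl hn' x' y'
  have c1 : Real.cosh (Real.log (hb ξ' x') - Real.log (hb ξ' y')) ≤
      Real.exp 4 * Real.cosh (Real.log (hb ξ x) - Real.log (hb ξ y)) := by
    have := cosh_add_le (Real.log (hb ξ x) - Real.log (hb ξ y))
      ((Real.log (hb ξ' x') - Real.log (hb ξ x)) - (Real.log (hb ξ' y') - Real.log (hb ξ y)))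
    have e : Real.log (hb ξ x) - Real.log (hb ξ y) +
      ((Real.log (hb ξ' x') - Real.log (hb ξ x)) - (Real.log (hb ξ' y') - Real.log (hb ξ y))) =
      Real.log (hb ξ' x') - Real.log (hb ξ' y') := by ring
    rw [e] at this
    refine this.trans (mul_le_mul_of_nonneg_right (Real.exp_le_exp.2 ?_) (Real.cosh_pos _).le)
    exact (abs_sub _ _).trans (by linarith)
  have u1 : hb ξ' x' ≤ Real.exp 2 * hb ξ x := by
    have := (abs_le.1 h1).2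
    calc hb ξ' x' = Real.exp (Real.log (hb ξ' x')) := (Real.exp_log p3).symm
      _ ≤ Real.exp (2 + Real.log (hb ξ x)) := Real.exp_le_exp.2 (by linarith)
      _ = _ := by rw [Real.exp_add, Real.exp_log p1]
  have u2 : hb ξ' y' ≤ Real.exp 2 * hb ξ y := by
    have := (abs_le.1 h2).2
    calc hb ξ' y' = Real.exp (Real.log (hb ξ' y')) := (Real.exp_log p4).symm
      _ ≤ Real.exp (2 + Real.log (hb ξ y)) := Real.exp_le_exp.2 (by linarith)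
      _ = _ := by rw [Real.exp_add, Real.exp_log p2]
  have hf := fl_nonneg ξ x y
  have hf' := fl_nonneg ξ' x' y'
  have c2 : hb ξ' x' * hb ξ' y' ≤ Real.exp 4 * (hb ξ x * hb ξ y) := by
    have : Real.exp 4 = Real.exp 2 * Real.exp 2 := by rw [← Real.exp_add]; norm_num
    rw [this]
    calc hb ξ' x' * hb ξ' y' ≤ (Real.exp 2 * hb ξ x) * (Real.exp 2 * hb ξ y) := by gcongr
      _ = _ := by ring
  have c3 : fl ξ' x' y' ^ 2 ≤ 2 * K ^ 2 * (fl ξ x y ^ 2 + 1) := by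
    calc fl ξ' x' y' ^ 2 ≤ (K * (fl ξ x y + 1)) ^ 2 := by gcongr
      _ ≤ 2 * K ^ 2 * (fl ξ x y ^ 2 + 1) := by
          have := mul_nonneg (sq_nonneg K) (sq_nonneg (fl ξ x y - 1))
          nlinarith
  have hch : 1 ≤ ch x y := one_le_ch x y
  have c4 : hb ξ x * hb ξ y ≤ Real.exp 2 := by
    have : Real.exp 2 = Real.exp 1 * Real.exp 1 := by rw [← Real.exp_add]; norm_num
    rw [this]; gcongr
  have c5 : hb ξ x * hb ξ y * fl ξ x y ^ 2 ≤ 2 * ch x y := by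
    have := Real.cosh_pos (Real.log (hb ξ x) - Real.log (hb ξ y))
    linarith
  have c6 : Real.cosh (Real.log (hb ξ x) - Real.log (hb ξ y)) ≤ ch x y := by
    have : 0 ≤ hb ξ x * hb ξ y * fl ξ x y ^ 2 / 2 := by positivity
    linarith
  have c7 : hb ξ' x' * hb ξ' y' * fl ξ' x' y' ^ 2 / 2 ≤
      Real.exp 4 * K ^ 2 * ((hb ξ x * hb ξ y) * fl ξ x y ^ 2 + hb ξ x * hb ξ y) := by
    calc hb ξ' x' * hb ξ' y' * fl ξ' x' y' ^ 2 / 2 ≤
        (Real.exp 4 * (hb ξ x * hb ξ y)) * (2 * K ^ 2 * (fl ξ x y ^ 2 + 1)) / 2 := by gcongr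
      _ = _ := by ring
  have hE : 0 < Real.exp 4 := Real.exp_pos _
  have hE2 : 0 < Real.exp 2 := Real.exp_pos _
  have hEK : 0 ≤ Real.exp 4 * K ^ 2 := by positivity
  rw [e2]
  calc Real.cosh (Real.log (hb ξ' x') - Real.log (hb ξ' y')) +
      hb ξ' x' * hb ξ' y' * fl ξ' x' y' ^ 2 / 2
      ≤ Real.exp 4 * ch x y + Real.exp 4 * K ^ 2 * (2 * ch x y + Real.exp 2 * ch x y) := by
        refine add_le_add (c1.trans (by gcongr)) (c7.trans ?_)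
        refine mul_le_mul_of_nonneg_left (add_le_add c5 ?_) hEK
        nlinarith
    _ = M K * ch x y := by unfold M; ring

theorem hd_le_of_ch {x y x' y' : X} {m : ℝ} (hm : 1 ≤ m) (h : ch x' y' ≤ m * ch x y) :
    hd x' y' ≤ hd x y + Real.log (2 * m) := by
  have h1 : Real.exp (hd x' y') ≤ 2 * ch x' y' := by
    rw [← cosh_hd x' y', Real.cosh_eq]; have := Real.exp_pos (-hd x' y'); linarith
  have h2 : ch x y ≤ Real.exp (hd x y) := by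
    rw [← cosh_hd x y, Real.cosh_eq]
    have : Real.exp (-hd x y) ≤ Real.exp (hd x y) := Real.exp_le_exp.2 (by linarith [hd_nonneg x y])
    linarith
  rw [← Real.exp_le_exp, Real.exp_add, Real.exp_log (by linarith)]
  have := hd_nonneg x y
  nlinarith [one_le_ch x y, Real.exp_pos (hd x y)]

theorem hd_le_of_ch' {x y : X} {r : ℝ} (hr : 0 ≤ r) (h : ch x y ≤ 1 + r ^ 2 / 2) : hd x y ≤ r := by
  have h1 : 1 + r ^ 2 / 2 ≤ Real.cosh r := by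
    have h2 : Real.cosh r = 1 + 2 * Real.sinh (r / 2) ^ 2 := by
      have e : r = 2 * (r / 2) := by ring
      conv_lhs => rw [e, Real.cosh_two_mul, Real.cosh_sq]
      ring
    have h3 : r / 2 ≤ Real.sinh (r / 2) := Real.self_le_sinh_iff.2 (by linarith)
    rw [h2]
    nlinarith
  rw [← cosh_hd x y] at h
  have h2 := Real.cosh_le_cosh.1 (h.trans h1)
  rwa [abs_of_nonneg (hd_nonneg x y), abs_of_nonneg hr] at h2

theorem mh_mono {P : Type} {q q' : P → GLI} {D ε ε' : ℝ} (h : ε ≤ ε') {ξ ξ' : I → ℝ}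
    (hm : Mh q q' D ε ξ ξ') : Mh q q' D ε' ξ ξ' := fun y hy σ hσ =>
  ⟨(hm y hy σ hσ).1.trans h, (hm y hy σ hσ).2.trans h⟩

/-- moderate related points: `x'` is close to `T_σ x` -/
theorem moderate {Γ Γ' : Subgroup GLI} {φ : Γ ≃* Γ'} {P : Type} {q q' : P → GLI}
    {Ξ Ξ' : Set (I → ℝ)} {η D ρ ε L : ℝ} (hD : 24 ≤ D) (h : Mt Γ Γ' φ q q' Ξ Ξ' η D ρ) (hL : 0 ≤ L)
    (hε : 0 < ε) (hεL : Real.sinh L ^ 2 * (ε * Real.exp 2) ≤ 1 / 32)
    {σ : P} {y x x' : X} (hy : hd y (act (q σ) 0) ≤ D / 8)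
    (hx : (x = y ∧ x' = act (Tr q q' σ) y) ∨
      ∃ ξ ∈ Ξ, ∃ ξ' ∈ Ξ', Mc q q' D ε ξ ξ' ∧ |Real.log (hb ξ y)| ≤ 1 ∧
        |Real.log (hb ξ' (act (Tr q q' σ) y))| ≤ 1 ∧
        ∃ t : ℝ, 0 ≤ t ∧ t ≤ L ∧ x = mv ξ t y ∧ x' = mv ξ' t (act (Tr q q' σ) y)) :
    hd x (act (q σ) 0) ≤ D / 8 + L ∧ hd x' (act (Tr q q' σ) x) ≤ 1 / 4 := by
  have hT := tr_inG h.mf.inG h.mf.inG' σ
  rcases hx with ⟨h1, h2⟩ | ⟨ξ, hξ, ξ', hξ', hm, h1, h2, t, ht, htL, h3, h4⟩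
  · rw [h1, h2, hd_self]; exact ⟨by linarith, by norm_num⟩
  · have hn := h.horo.horo.null ξ hξ
    have hn' := h.horo'.horo.null ξ' hξ'
    constructor
    · have := hd_triangle x y (act (q σ) 0)
      have e : hd x y = t := by rw [h3, hd_comm, hd_mv hn, abs_of_nonneg ht]
      linarith
    · apply hd_le_of_ch' (by norm_num)
      have hnT := nullF_mulVec hn hT
      rw [h3, h4, act_mv hn hT, ch_comm, ch_mv_mv hnT hn', hb_act' hT]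
      have p1 := hb_pos' hn y
      have p2 := hb_pos' hn' (act (Tr q q' σ) y)
      have l1 : Real.exp (-1) ≤ hb ξ y := by
        rw [← Real.exp_log p1]; exact Real.exp_le_exp.2 (abs_le.1 h1).1
      have l2 : Real.exp (-1) ≤ hb ξ' (act (Tr q q' σ) y) := by
        rw [← Real.exp_log p2]; exact Real.exp_le_exp.2 (abs_le.1 h2).1
      have hb1 : hb ξ (mv ξ (Real.log (hb ξ y)) y) = 1 := by
        rw [hb_mv hn, Real.exp_neg, Real.exp_log p1, inv_mul_cancel₀ p1.ne']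
      have hb2 : hd (mv ξ (Real.log (hb ξ y)) y) (act (q σ) 0) ≤ D / 6 := by
        have a := hd_triangle (mv ξ (Real.log (hb ξ y)) y) y (act (q σ) 0)
        have b : hd (mv ξ (Real.log (hb ξ y)) y) y ≤ 1 := by rw [hd_comm, hd_mv hn]; exact h1
        linarith
      have m := (hm.1 _ hb1 σ hb2).2
      have s1 : Real.sinh t ^ 2 ≤ Real.sinh L ^ 2 := by
        have := Real.sinh_le_sinh.2 htL
        have := Real.sinh_nonneg_iff.2 ht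
        gcongr
      have s2 : - bl ((Tr q q' σ).val *ᵥ ξ) ξ' / (hb ξ y * hb ξ' (act (Tr q q' σ) y)) ≤
          ε * Real.exp 2 := by
        rw [div_le_iff₀ (mul_pos p1 p2)]
        have e1 : 1 ≤ Real.exp 2 * (hb ξ y * hb ξ' (act (Tr q q' σ) y)) := by
          have : Real.exp 2 * (Real.exp (-1) * Real.exp (-1)) = 1 := by
            rw [← Real.exp_add, ← Real.exp_add]; norm_num
          rw [← this]; gcongr
        calc - bl ((Tr q q' σ).val *ᵥ ξ) ξ' ≤ ε * 1 := by linarith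
          _ ≤ ε * (Real.exp 2 * (hb ξ y * hb ξ' (act (Tr q q' σ) y))) := by gcongr
          _ = _ := by ring
      have s3 : Real.sinh t ^ 2 * (- bl ((Tr q q' σ).val *ᵥ ξ) ξ' /
          (hb ξ y * hb ξ' (act (Tr q q' σ) y))) ≤ 1 / 32 := by
        calc _ ≤ Real.sinh t ^ 2 * (ε * Real.exp 2) := by gcongr
          _ ≤ Real.sinh L ^ 2 * (ε * Real.exp 2) := by gcongr
          _ ≤ 1 / 32 := hεL
      linarith

/-- if `x` is deep in the horoball of `ξ` then so is every related point near it -/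
theorem deep_case {Γ Γ' : Subgroup GLI} {φ : Γ ≃* Γ'} {P : Type} {q q' : P → GLI}
    {Ξ Ξ' : Set (I → ℝ)} {η D ρ ε D₂ : ℝ} (h : Mt Γ Γ' φ q q' Ξ Ξ' η D ρ)
    {x y y' x₀ : X} {ξ : I → ℝ} (hξ : ξ ∈ Ξ) (h1 : |Real.log (hb ξ x₀)| ≤ 1) {t : ℝ}
    (ht : D₂ + D / 8 + 3 < t) (hx : x = mv ξ t x₀) (hxy : hd x y ≤ D₂) {τ : P} {y₀ : X}
    (hy₀ : hd y₀ (act (q τ) 0) ≤ D / 8)
    (hy : (y = y₀ ∧ y' = act (Tr q q' τ) y₀) ∨
      ∃ ζ ∈ Ξ, ∃ ζ' ∈ Ξ', Mc q q' D ε ζ ζ' ∧ |Real.log (hb ζ y₀)| ≤ 1 ∧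
        |Real.log (hb ζ' (act (Tr q q' τ) y₀))| ≤ 1 ∧
        ∃ k : ℝ, 0 ≤ k ∧ y = mv ζ k y₀ ∧ y' = mv ζ' k (act (Tr q q' τ) y₀)) :
    ∃ ξ' ∈ Ξ', Mc q q' D ε ξ ξ' ∧ |Real.log (hb ξ y₀)| ≤ 1 ∧
        |Real.log (hb ξ' (act (Tr q q' τ) y₀))| ≤ 1 ∧
        ∃ k : ℝ, 0 ≤ k ∧ y = mv ξ k y₀ ∧ y' = mv ξ' k (act (Tr q q' τ) y₀) := by
  have hn := h.horo.horo.null ξ hξ
  have p0 := hb_pos' hn x₀
  have px := hb_pos' hn x
  have py := hb_pos' hn y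
  have e1 : hb ξ x ≤ Real.exp (1 - t) := by
    rw [hx, hb_mv hn]
    have : hb ξ x₀ ≤ Real.exp 1 := by
      calc hb ξ x₀ = Real.exp (Real.log (hb ξ x₀)) := (Real.exp_log p0).symm
        _ ≤ _ := Real.exp_le_exp.2 (abs_le.1 h1).2
    calc Real.exp (-t) * hb ξ x₀ ≤ Real.exp (-t) * Real.exp 1 := by gcongr
      _ = Real.exp (1 - t) := by rw [← Real.exp_add]; ring_nf
  have e2 : hb ξ y < Real.exp (-D / 8 - 2) := by
    calc hb ξ y ≤ Real.exp (hd x y) * hb ξ x := hb_lip hn x y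
      _ ≤ Real.exp D₂ * Real.exp (1 - t) := by gcongr
      _ = Real.exp (D₂ + (1 - t)) := by rw [← Real.exp_add]
      _ < Real.exp (-D / 8 - 2) := Real.exp_lt_exp.2 (by linarith)
  have e3 : Real.exp (-D / 8) ≤ hb ξ y₀ := by
    have a : 1 ≤ hb ξ (act (q τ) 0) := h.out τ ξ hξ
    have b : hb ξ (act (q τ) 0) ≤ Real.exp (hd y₀ (act (q τ) 0)) * hb ξ y₀ := hb_lip hn _ _
    have c : Real.exp (hd y₀ (act (q τ) 0)) ≤ Real.exp (D / 8) := Real.exp_le_exp.2 hy₀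
    have p := hb_pos' hn y₀
    have d : 1 ≤ Real.exp (D / 8) * hb ξ y₀ := a.trans (b.trans (by gcongr))
    calc Real.exp (-D / 8) = Real.exp (-D / 8) * 1 := (mul_one _).symm
      _ ≤ Real.exp (-D / 8) * (Real.exp (D / 8) * hb ξ y₀) := by gcongr
      _ = hb ξ y₀ := by rw [← mul_assoc, ← Real.exp_add]; ring_nf; simp
  rcases hy with ⟨h2, h3⟩ | ⟨ζ, hζ, ζ', hζ', hm, h2, h3, k, hk, h4, h5⟩
  · exfalso
    rw [h2] at e2
    have : Real.exp (-D / 8 - 2) < Real.exp (-D / 8) := Real.exp_lt_exp.2 (by linarith)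
    linarith
  · have hnζ := h.horo.horo.null ζ hζ
    have hk1 : 1 ≤ k := by
      by_contra hlt
      have a : hb ξ y₀ ≤ Real.exp (hd y y₀) * hb ξ y := hb_lip hn _ _
      have b : hd y y₀ = k := by rw [h4, hd_comm, hd_mv hnζ, abs_of_nonneg hk]
      rw [b] at a
      have c : Real.exp k * hb ξ y < Real.exp 1 * Real.exp (-D / 8 - 2) := by
        have : Real.exp k ≤ Real.exp 1 := Real.exp_le_exp.2 (by linarith)
        have p := Real.exp_pos 1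
        calc Real.exp k * hb ξ y ≤ Real.exp 1 * hb ξ y := by gcongr
          _ < _ := by gcongr
      rw [← Real.exp_add] at c
      have d : Real.exp (1 + (-D / 8 - 2)) < Real.exp (-D / 8) := Real.exp_lt_exp.2 (by linarith)
      linarith
    have pζ := hb_pos' hnζ y₀
    have f1 : hb ζ y ≤ 1 := by
      rw [h4, hb_mv hnζ]
      have : hb ζ y₀ ≤ Real.exp 1 := by
        calc hb ζ y₀ = Real.exp (Real.log (hb ζ y₀)) := (Real.exp_log pζ).symm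
          _ ≤ _ := Real.exp_le_exp.2 (abs_le.1 h2).2
      calc Real.exp (-k) * hb ζ y₀ ≤ Real.exp (-k) * Real.exp 1 := by gcongr
        _ = Real.exp (-k + 1) := by rw [← Real.exp_add]
        _ ≤ 1 := Real.exp_le_one_iff.2 (by linarith)
    have f2 : hb ξ y ≤ 1 := by
      refine e2.le.trans (Real.exp_le_one_iff.2 ?_)
      have : 0 ≤ D := by
        have := hd_nonneg y₀ (act (q τ) 0); linarith
      linarith
    have := h.horo.horo.disj ξ hξ ζ hζ y f2 f1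
    subst this
    exact ⟨ζ', hζ', hm, h2, h3, k, hk, h4, h5⟩

theorem deep_near {Γ Γ' : Subgroup GLI} {φ : Γ ≃* Γ'} {P : Type} {q q' : P → GLI}
    {Ξ Ξ' : Set (I → ℝ)} {η D ρ ε ε₀ D₂ K ρ₁ : ℝ} (hD : 24 ≤ D) (hK : 1 ≤ K) (hε1 : ε ≤ 1) (hε0 : ε ≤ ε₀)
    (h : Mt Γ Γ' φ q q' Ξ Ξ' η D ρ) (hρ : ρ ≤ ρ₁)
    (hu : ∀ {Γ Γ' : Subgroup GLI} {φ : Γ ≃* Γ'} {P : Type}
      {q q' : P → GLI} {Ξ Ξ' : Set (I → ℝ)} {η D ρ : ℝ}, 24 ≤ D → Mt Γ Γ' φ q q' Ξ Ξ' η D ρ →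
      ∀ ξ ∈ Ξ, ∀ ξ' ∈ Ξ', ∀ ξ'' ∈ Ξ', Mh q q' D ε₀ ξ ξ' → Mh q q' D ε₀ ξ ξ'' → ξ' = ξ'')
    (hf : ∀ {Γ Γ' : Subgroup GLI} {φ : Γ ≃* Γ'} {P : Type} {q q' : P → GLI}
      {Ξ Ξ' : Set (I → ℝ)} {η ρ : ℝ}, ρ ≤ ρ₁ → Mt Γ Γ' φ q q' Ξ Ξ' η D ρ →
      ∀ ξ ∈ Ξ, ∀ ξ' ∈ Ξ', Mh q q' D 1 ξ ξ' → ∀ (x y : X) (σ τ : P), |Real.log (hb ξ x)| ≤ 1 →
        |Real.log (hb ξ y)| ≤ 1 → hd x (act (q σ) 0) ≤ D / 8 → hd y (act (q τ) 0) ≤ D / 8 →
        fl ξ' (act (Tr q q' σ) x) (act (Tr q q' τ) y) ≤ K * (fl ξ x y + 1))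
    {x x' y y' x₀ : X} {σ : P} {ξ : I → ℝ} (hξ : ξ ∈ Ξ) {ξ' : I → ℝ} (hξ' : ξ' ∈ Ξ')
    (hm : Mc q q' D ε ξ ξ') (hx₀ : hd x₀ (act (q σ) 0) ≤ D / 8) (h1 : |Real.log (hb ξ x₀)| ≤ 1)
    (h2 : |Real.log (hb ξ' (act (Tr q q' σ) x₀))| ≤ 1) {t : ℝ}
    (ht : D₂ + D / 8 + 3 < t) (ht0 : 0 ≤ t) (hx : x = mv ξ t x₀)
    (hx' : x' = mv ξ' t (act (Tr q q' σ) x₀)) (hxy : hd x y ≤ D₂)
    (hy : Rl q q' Ξ Ξ' D ε y y') : |hd x' y' - hd x y| ≤ Real.log (2 * M K) := by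
  obtain ⟨τ, y₀, hy₀, hy⟩ := hy
  obtain ⟨ζ', hζ', hm', k1, k2, k, hk, k3, k4⟩ := deep_case h hξ h1 ht hx hxy hy₀ hy
  have := hu hD h ξ hξ ξ' hξ' ζ' hζ' (mh_mono hε0 hm.1) (mh_mono hε0 hm'.1)
  subst this
  have hn := h.horo.horo.null ξ hξ
  have hn' := h.horo'.horo.null ξ' hξ'
  have hT := tr_inG h.mf.inG h.mf.inG'
  have f1 := hf hρ h ξ hξ ξ' hξ' (mh_mono hε1 hm.1) x₀ y₀ σ τ h1 k1 hx₀ hy₀
  have f2 := hf hρ h.symm ξ' hξ' ξ hξ (mh_mono hε1 hm.2) (act (Tr q q' σ) x₀)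
    (act (Tr q q' τ) y₀) σ τ h2 k2
    (by rw [← act_tr h.mf.inG h.mf.inG' σ, hd_act (hT σ)]; exact hx₀)
    (by rw [← act_tr h.mf.inG h.mf.inG' τ, hd_act (hT τ)]; exact hy₀)
  rw [act_tr_tr h.mf.inG h.mf.inG', act_tr_tr h.mf.inG h.mf.inG'] at f2
  have logmv : ∀ {ζ : I → ℝ} (_ : NullF ζ) (s : ℝ) (z : X),
      Real.log (hb ζ (mv ζ s z)) = - s + Real.log (hb ζ z) := by
    intro ζ hz s z
    rw [hb_mv hz, Real.log_mul (Real.exp_pos _).ne' (hb_pos' hz z).ne', Real.log_exp]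
  have g1 : fl ξ x y = fl ξ x₀ y₀ := by rw [hx, k3, fl_mv hn]
  have g2 : fl ξ' x' y' = fl ξ' (act (Tr q q' σ) x₀) (act (Tr q q' τ) y₀) := by
    rw [hx', k4, fl_mv hn']
  have lx : Real.log (hb ξ x) = - t + Real.log (hb ξ x₀) := by rw [hx, logmv hn]
  have ly : Real.log (hb ξ y) = - k + Real.log (hb ξ y₀) := by rw [k3, logmv hn]
  have lx' : Real.log (hb ξ' x') = - t + Real.log (hb ξ' (act (Tr q q' σ) x₀)) := by rw [hx', logmv hn']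
  have ly' : Real.log (hb ξ' y') = - k + Real.log (hb ξ' (act (Tr q q' τ) y₀)) := by rw [k4, logmv hn']
  have le1 : ∀ {ζ : I → ℝ} (_ : NullF ζ) (z : X), Real.log (hb ζ z) ≤ 1 → hb ζ z ≤ Real.exp 1 := by
    intro ζ hz z hle
    calc hb ζ z = Real.exp (Real.log (hb ζ z)) := (Real.exp_log (hb_pos' hz z)).symm
      _ ≤ _ := Real.exp_le_exp.2 hle
  have a1 := abs_le.1 h1
  have a2 := abs_le.1 h2
  have a3 := abs_le.1 k1
  have a4 := abs_le.1 k2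
  have b1 : |Real.log (hb ξ' x') - Real.log (hb ξ x)| ≤ 2 := by
    rw [lx, lx', abs_le]; constructor <;> linarith
  have b2 : |Real.log (hb ξ' y') - Real.log (hb ξ y)| ≤ 2 := by
    rw [ly, ly', abs_le]; constructor <;> linarith
  have c1 := ch_comp hn hn' hK b1 b2 (le1 hn _ (by rw [lx]; linarith)) (le1 hn _ (by rw [ly]; linarith))
    (by rw [g1, g2]; exact f1)
  have c2 := ch_comp hn' hn hK (by rw [abs_sub_comm]; exact b1) (by rw [abs_sub_comm]; exact b2)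
    (le1 hn' _ (by rw [lx']; linarith)) (le1 hn' _ (by rw [ly']; linarith))
    (by rw [g1, g2]; exact f2)
  have hM : 1 ≤ M K := by
    unfold M
    have : 1 ≤ Real.exp 4 := Real.one_le_exp (by norm_num)
    have : 0 ≤ Real.exp 4 * K ^ 2 * (2 + Real.exp 2) := by positivity
    linarith
  have d1 := hd_le_of_ch hM c1
  have d2 := hd_le_of_ch hM c2
  rw [abs_le]; constructor <;> linarith

/-- the statement of `match_unique` -/
def MatchUnique : Prop := ∃ ε₀ : ℝ, 0 < ε₀ ∧ ∀ {Γ Γ' : Subgroup GLI} {φ : Γ ≃* Γ'} {P : Type}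
      {q q' : P → GLI} {Ξ Ξ' : Set (I → ℝ)} {η D ρ : ℝ}, 24 ≤ D → Mt Γ Γ' φ q q' Ξ Ξ' η D ρ →
      ∀ ξ ∈ Ξ, ∀ ξ' ∈ Ξ', ∀ ξ'' ∈ Ξ', Mh q q' D ε₀ ξ ξ' → Mh q q' D ε₀ ξ ξ'' → ξ' = ξ''

theorem rl_near_of (match_unique : MatchUnique) : ∃ a : ℝ, 0 < a ∧ ∀ D : ℝ, 24 ≤ D → ∀ D₂ : ℝ, ∃ ε : ℝ, 0 < ε ∧ ε ≤ 1 ∧
    ∃ ρ₀ : ℝ, 0 < ρ₀ ∧ ∀ {Γ Γ' : Subgroup GLI} {φ : Γ ≃* Γ'} {P : Type} {q q' : P → GLI}
      {Ξ Ξ' : Set (I → ℝ)} {η ρ : ℝ}, ρ ≤ ρ₀ → Mt Γ Γ' φ q q' Ξ Ξ' η D ρ →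
      ∀ x x' y y', Rl q q' Ξ Ξ' D ε x x' → Rl q q' Ξ Ξ' D ε y y' → hd x y ≤ D₂ →
        |hd x' y' - hd x y| ≤ a := by
  obtain ⟨K, hK, HF⟩ := fl_le
  obtain ⟨ε₀, hε₀, HU⟩ := match_unique
  refine ⟨max 1 (Real.log (2 * M K)), lt_max_of_lt_left one_pos, fun D hD D₃ => ?_⟩
  set D₂ := max D₃ 0 with hD₂
  have hD₂0 : 0 ≤ D₂ := le_max_right _ _
  set L := D₂ + D / 8 + 3 with hLdef
  have hL : 0 ≤ L := by rw [hLdef]; linarith
  obtain ⟨ρ₁, hρ₁, HF⟩ := HF D hD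
  obtain ⟨ρ₂, hρ₂, HT⟩ := T_near D (2 * (D / 8 + L) + D₂) (1 / 4) hD (by norm_num)
  have hden : 0 < 32 * (Real.sinh L ^ 2 + 1) * Real.exp 2 := by positivity
  refine ⟨min (min 1 ε₀) (1 / (32 * (Real.sinh L ^ 2 + 1) * Real.exp 2)),
    lt_min (lt_min one_pos hε₀) (by positivity), (min_le_left _ _).trans (min_le_left _ _),
    min ρ₁ ρ₂, lt_min hρ₁ hρ₂, ?_⟩
  set ε := min (min 1 ε₀) (1 / (32 * (Real.sinh L ^ 2 + 1) * Real.exp 2)) with hεdef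
  intro Γ Γ' φ P q q' Ξ Ξ' η ρ hρ h x x' y y' hx hy hxy
  have hε : 0 < ε := lt_min (lt_min one_pos hε₀) (by positivity)
  have hε1 : ε ≤ 1 := (min_le_left _ _).trans (min_le_left _ _)
  have hεε : ε ≤ ε₀ := (min_le_left _ _).trans (min_le_right _ _)
  have hεL : Real.sinh L ^ 2 * (ε * Real.exp 2) ≤ 1 / 32 := by
    have h1 : ε ≤ 1 / (32 * (Real.sinh L ^ 2 + 1) * Real.exp 2) := min_le_right _ _
    have h2 : ε * (32 * (Real.sinh L ^ 2 + 1) * Real.exp 2) ≤ 1 := by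
      rwa [le_div_iff₀ hden] at h1
    have h3 : 0 ≤ ε * Real.exp 2 := by positivity
    nlinarith
  have hxy' : hd x y ≤ D₂ := hxy.trans (le_max_left _ _)
  have hρ1 : ρ ≤ ρ₁ := hρ.trans (min_le_left _ _)
  have hρ2 : ρ ≤ ρ₂ := hρ.trans (min_le_right _ _)
  have hx0 := hx
  have hy0 := hy
  obtain ⟨σ, x₀, hx₀, hx⟩ := hx
  obtain ⟨τ, y₀, hy₀, hy⟩ := hy
  -- deep cases
  by_cases dx : ∃ ξ ∈ Ξ, ∃ ξ' ∈ Ξ', Mc q q' D ε ξ ξ' ∧ |Real.log (hb ξ x₀)| ≤ 1 ∧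
        |Real.log (hb ξ' (act (Tr q q' σ) x₀))| ≤ 1 ∧
        ∃ t : ℝ, 0 ≤ t ∧ L < t ∧ x = mv ξ t x₀ ∧ x' = mv ξ' t (act (Tr q q' σ) x₀)
  · obtain ⟨ξ, hξ, ξ', hξ', hm, h1, h2, t, ht, hLt, h3, h4⟩ := dx
    exact (deep_near hD hK hε1 hεε h hρ1 HU HF hξ hξ' hm hx₀ h1 h2 hLt ht h3 h4 hxy' hy0).trans
      (le_max_right _ _)
  by_cases dy : ∃ ξ ∈ Ξ, ∃ ξ' ∈ Ξ', Mc q q' D ε ξ ξ' ∧ |Real.log (hb ξ y₀)| ≤ 1 ∧
        |Real.log (hb ξ' (act (Tr q q' τ) y₀))| ≤ 1 ∧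
        ∃ t : ℝ, 0 ≤ t ∧ L < t ∧ y = mv ξ t y₀ ∧ y' = mv ξ' t (act (Tr q q' τ) y₀)
  · obtain ⟨ξ, hξ, ξ', hξ', hm, h1, h2, t, ht, hLt, h3, h4⟩ := dy
    have := (deep_near hD hK hε1 hεε h hρ1 HU HF hξ hξ' hm hy₀ h1 h2 hLt ht h3 h4
      (by rw [hd_comm]; exact hxy') hx0).trans (le_max_right 1 _)
    rwa [hd_comm y' x', hd_comm y x] at this
  have mx := moderate hD h hL hε hεL hx₀ (by
    rcases hx with hx | ⟨ξ, hξ, ξ', hξ', hm, h1, h2, t, ht, h3, h4⟩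
    · exact Or.inl hx
    · right
      refine ⟨ξ, hξ, ξ', hξ', hm, h1, h2, t, ht, ?_, h3, h4⟩
      by_contra hc
      exact dx ⟨ξ, hξ, ξ', hξ', hm, h1, h2, t, ht, not_le.1 hc, h3, h4⟩)
  have my := moderate hD h hL hε hεL hy₀ (by
    rcases hy with hy | ⟨ξ, hξ, ξ', hξ', hm, h1, h2, t, ht, h3, h4⟩
    · exact Or.inl hy
    · right
      refine ⟨ξ, hξ, ξ', hξ', hm, h1, h2, t, ht, ?_, h3, h4⟩
      by_contra hc
      exact dy ⟨ξ, hξ, ξ', hξ', hm, h1, h2, t, ht, not_le.1 hc, h3, h4⟩)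
  have hT := tr_inG h.mf.inG h.mf.inG'
  have d1 : hd (act (q σ) 0) (act (q τ) 0) ≤ 2 * (D / 8 + L) + D₂ := by
    have a := hd_triangle (act (q σ) 0) x (act (q τ) 0)
    have b := hd_triangle x y (act (q τ) 0)
    have c := hd_comm (act (q σ) 0) x
    linarith [mx.1, my.1]
  have d2 : hd y (act (q σ) 0) ≤ 2 * (D / 8 + L) + D₂ := by
    have a := hd_triangle y x (act (q σ) 0)
    have c := hd_comm y x
    linarith [mx.1]
  have d3 := (HT hρ2 h σ τ d1 y d2).2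
  have e0 : hd (act (Tr q q' σ) x) (act (Tr q q' σ) y) = hd x y := hd_act (hT σ) _ _
  refine le_trans ?_ (le_max_left _ _)
  have t1 := hd_triangle x' (act (Tr q q' σ) x) y'
  have t2 := hd_triangle (act (Tr q q' σ) x) (act (Tr q q' σ) y) y'
  have t3 := hd_triangle (act (Tr q q' σ) y) (act (Tr q q' τ) y) y'
  have t4 := hd_comm (act (Tr q q' τ) y) y'
  have u1 := hd_triangle (act (Tr q q' σ) x) x' (act (Tr q q' σ) y)
  have u2 := hd_triangle x' y' (act (Tr q q' σ) y)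
  have u3 := hd_triangle y' (act (Tr q q' τ) y) (act (Tr q q' σ) y)
  have u4 := hd_comm (act (Tr q q' τ) y) (act (Tr q q' σ) y)
  have u5 := hd_comm (act (Tr q q' σ) x) x'
  rw [abs_le]; constructor <;> linarith [mx.2, my.2]

end T9
end Pool.Agent.helper7.WB
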